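import Pool.Agent.W226.MP.Place
import Pool.Agent.H648R2.S.Thm

set_option autoImplicit false

namespace Pool.Agent.W226.MP

open Finset

/-- good places of algebraic irrational numbers -/
theorem place_alg (ξ : ℝ) (halg : IsAlgebraic ℚ ξ) (hirr : Irrational ξ) (b : ℕ) (hb : 2 ≤ b)
    (δ : ℝ) (hδ : 0 < δ) :
    ∃ ε : ℝ, 0 < ε ∧ ∃ N₀ : ℕ, ∀ N L : ℕ, N₀ ≤ N → (L : ℝ) ≤ ε * N →
      ∃ n : ℕ, N ≤ n ∧ (n : ℝ) ≤ (1 + δ) * N ∧ GoodPlace b ξ L n := by
  have hb2 : (2 : ℝ) ≤ b := by exact_mod_cast hb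
  have hb0 : (0 : ℝ) < b := by linarith
  have hlb0 : 0 < Real.log b := Real.log_pos (by linarith)
  have hl2 : 0 < Real.log 2 := Real.log_pos (by norm_num)
  set δ' : ℝ := min δ 1 with hδ'
  have hδ'0 : 0 < δ' := lt_min hδ one_pos
  have hδ'1 : δ' ≤ 1 := min_le_right _ _
  have hδ'δ : δ' ≤ δ := min_le_left _ _
  obtain ⟨ε, hε, L0, h⟩ := Pool.Agent.H648R2.S.sep b hb ξ halg hirr 1 δ' hδ'0
  refine ⟨ε / 2, by linarith, max L0 ⌈2 * Real.log 2 / (ε * Real.log b)⌉₊, fun N L hN hL => ?_⟩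
  have hN0 : L0 ≤ N := (le_max_left _ _).trans hN
  have hN1 : 2 * Real.log 2 / (ε * Real.log b) ≤ N :=
    (Nat.le_ceil _).trans (by exact_mod_cast (le_max_right _ _).trans hN)
  rw [div_le_iff₀ (by positivity)] at hN1
  obtain ⟨i, ⟨q, hq1, hq2, a, ha⟩, hg⟩ := place b L hb ξ hirr N
  have hNN : (0 : ℝ) ≤ N := Nat.cast_nonneg _
  have hqR : (1 : ℝ) ≤ q := by exact_mod_cast hq1
  have hsep := h N hN0 (fun _ => N) ⟨fun _ => le_rfl, fun _ => by nlinarith, fun i j hij =>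
    absurd (Subsingleton.elim i j) hij⟩ (fun _ => (q : ℤ)) (fun h0 => by
      have h1 := congrFun h0 0
      simp only [Pi.zero_apply] at h1
      omega) (fun _ => by
      rw [Int.cast_natCast, abs_of_pos (by linarith)]
      have h1 : (q : ℝ) ≤ 2 * (b : ℝ) ^ L := by exact_mod_cast hq2.le
      refine h1.trans ?_
      have h2 : (2 : ℝ) * (b : ℝ) ^ L = Real.exp (Real.log 2 + L * Real.log b) := by
        rw [Real.exp_add, Real.exp_log (by norm_num), mul_comm (L : ℝ), Real.exp_mul,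
          Real.exp_log hb0, Real.rpow_natCast]
      rw [h2]
      apply Real.exp_le_exp.2
      have h3 : (L : ℝ) * Real.log b ≤ ε / 2 * N * Real.log b :=
        mul_le_mul_of_nonneg_right hL hlb0.le
      nlinarith) a
  have e1 : ξ * ∑ j : Fin 1, (((fun _ => (q : ℤ)) j : ℤ) : ℝ) * (b : ℝ) ^ ((fun _ : Fin 1 => N) j) - a
      = ((q * b ^ N : ℕ) : ℝ) * ξ - a := by
    simp only [Fin.sum_univ_one]
    push_cast
    ring
  rw [e1] at hsep
  refine ⟨N + i, by omega, ?_, hg⟩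
  have h1 : (b : ℝ) ^ i * Real.exp (-(δ' * (N * Real.log b))) < 1 :=
    lt_of_lt_of_le (mul_lt_mul_of_pos_left hsep (by positivity)) ha
  have h2 : (i : ℝ) * Real.log b + -(δ' * (N * Real.log b)) < 0 := by
    have h3 := Real.log_lt_log (by positivity) h1
    rw [Real.log_mul (by positivity) (Real.exp_pos _).ne', Real.log_pow, Real.log_exp,
      Real.log_one] at h3
    exact h3
  have h3 : (i : ℝ) * Real.log b < (δ' * N) * Real.log b := by linarith
  have h4 := lt_of_mul_lt_mul_right h3 hlb0.le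
  push_cast
  nlinarith

end Pool.Agent.W226.MP
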