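import Mathlib

set_option autoImplicit false

namespace Pool.Agent.W226.MP

open Finset

/-- the number of integers `t` with `lo ≤ t < lo + s` -/
theorem card_int_window (T : ℕ) (lo s : ℝ) (hs : 0 ≤ s) (S : Finset ℕ)
    (hS : ∀ t ∈ S, lo ≤ (t : ℝ) ∧ (t : ℝ) < lo + s) : (S.card : ℝ) ≤ s + 1 := by
  have h1 : S.card ≤ (Finset.Ico ⌈lo⌉ ⌈lo + s⌉).card := by
    apply Finset.card_le_card_of_injOn (fun t : ℕ => (t : ℤ))
    · intro t ht
      have := hS t ht
      simp only [Finset.coe_Ico, Set.mem_Ico]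
      constructor
      · exact Int.ceil_le.2 (by exact_mod_cast this.1)
      · exact Int.lt_ceil.2 (by exact_mod_cast this.2)
    · intro a _ c _ h
      have h' : (a : ℤ) = (c : ℤ) := h
      exact_mod_cast h'
  rw [Int.card_Ico] at h1
  have h2 : ((⌈lo + s⌉ - ⌈lo⌉ : ℤ) : ℝ) ≤ s + 1 := by
    push_cast
    linarith [Int.ceil_lt_add_one (lo + s), Int.le_ceil lo]
  have h3 : (((⌈lo + s⌉ - ⌈lo⌉).toNat : ℕ) : ℝ) ≤ s + 1 := by
    rcases le_or_gt 0 (⌈lo + s⌉ - ⌈lo⌉) with h | h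
    · have : (((⌈lo + s⌉ - ⌈lo⌉).toNat : ℕ) : ℝ) = ((⌈lo + s⌉ - ⌈lo⌉ : ℤ) : ℝ) := by
        rw [← Int.cast_natCast, Int.toNat_of_nonneg h]
      rw [this]; exact h2
    · rw [Int.toNat_of_nonpos h.le]; simp; linarith
  have h4 : (S.card : ℝ) ≤ (((⌈lo + s⌉ - ⌈lo⌉).toNat : ℕ) : ℝ) := by exact_mod_cast h1
  linarith

/-- an arithmetic progression of length `T` and step `δ > 0` modulo one meets an arc of length `s` at
most `(T δ + 2) (s / δ + 1)` times -/
theorem arc_pos (δ β s : ℝ) (hδ : 0 < δ) (hs : 0 ≤ s) (T : ℕ) :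
    (((range T).filter (fun t : ℕ => Int.fract (β + t * δ) < s)).card : ℝ)
      ≤ (T * δ + 2) * (s / δ + 1) := by
  classical
  set S := (range T).filter (fun t : ℕ => Int.fract (β + t * δ) < s) with hSdef
  let f : ℕ → ℤ := fun t => ⌊β + t * δ⌋
  have hfib : ∀ a ∈ S.image f, (S.filter (fun t => f t = a)).card ≤ ⌊s / δ + 1⌋₊ := by
    intro a _
    apply Nat.le_floor
    apply card_int_window T ((a - β) / δ) (s / δ) (by positivity)
    intro t ht
    rw [Finset.mem_filter] at ht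
    obtain ⟨htS, hta⟩ := ht
    rw [hSdef, Finset.mem_filter] at htS
    have h1 : Int.fract (β + t * δ) < s := htS.2
    have h2 : (⌊β + (t : ℝ) * δ⌋ : ℝ) = a := by
      have : ⌊β + (t : ℝ) * δ⌋ = a := hta
      exact_mod_cast this
    have h3 : (β + (t : ℝ) * δ) = a + Int.fract (β + t * δ) := by
      rw [← h2]; exact (Int.floor_add_fract _).symm
    have h4 := Int.fract_nonneg (β + (t : ℝ) * δ)
    constructor
    · rw [div_le_iff₀ hδ]; linarith
    · rw [← add_div, lt_div_iff₀ hδ]; linarith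
  have h1 := Finset.card_le_mul_card_image S _ hfib
  have himg : ((S.image f).card : ℝ) ≤ T * δ + 2 := by
    have hsub : S.image f ⊆ Finset.Icc ⌊β⌋ ⌊β + T * δ⌋ := by
      intro a ha
      obtain ⟨t, ht, rfl⟩ := Finset.mem_image.1 ha
      rw [hSdef, Finset.mem_filter, Finset.mem_range] at ht
      rw [Finset.mem_Icc]
      have htT : (t : ℝ) ≤ T := by exact_mod_cast ht.1.le
      constructor
      · apply Int.floor_le_floor
        have : 0 ≤ (t : ℝ) * δ := by positivity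
        linarith
      · apply Int.floor_le_floor
        nlinarith
    have h2 := Finset.card_le_card hsub
    rw [Int.card_Icc] at h2
    have h3 : ((⌊β + T * δ⌋ + 1 - ⌊β⌋ : ℤ) : ℝ) ≤ T * δ + 2 := by
      push_cast
      linarith [Int.floor_le (β + T * δ), Int.lt_floor_add_one β]
    have h5 : 0 ≤ (⌊β + T * δ⌋ + 1 - ⌊β⌋ : ℤ) := by
      have : ⌊β⌋ ≤ ⌊β + T * δ⌋ := by
        apply Int.floor_le_floor
        have : 0 ≤ (T : ℝ) * δ := by positivity
        linarith
      omega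
    have h6 : (((⌊β + T * δ⌋ + 1 - ⌊β⌋).toNat : ℕ) : ℝ) ≤ T * δ + 2 := by
      have : (((⌊β + T * δ⌋ + 1 - ⌊β⌋).toNat : ℕ) : ℝ) = ((⌊β + T * δ⌋ + 1 - ⌊β⌋ : ℤ) : ℝ) := by
        rw [← Int.cast_natCast, Int.toNat_of_nonneg h5]
      rw [this]; exact h3
    have h7 : ((S.image f).card : ℝ) ≤ (((⌊β + T * δ⌋ + 1 - ⌊β⌋).toNat : ℕ) : ℝ) := by
      exact_mod_cast h2
    linarith
  have h8 : (S.card : ℝ) ≤ (⌊s / δ + 1⌋₊ : ℝ) * ((S.image f).card : ℝ) := by exact_mod_cast h1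
  have h9 : (⌊s / δ + 1⌋₊ : ℝ) ≤ s / δ + 1 := Nat.floor_le (by positivity)
  calc (S.card : ℝ) ≤ (⌊s / δ + 1⌋₊ : ℝ) * ((S.image f).card : ℝ) := h8
    _ ≤ (s / δ + 1) * (T * δ + 2) := by
        apply mul_le_mul h9 himg (by positivity) (by positivity)
    _ = _ := by ring

theorem arc_any (δ β s : ℝ) (hδ : δ ≠ 0) (hs : 0 ≤ s) (T : ℕ) :
    (((range T).filter (fun t : ℕ => Int.fract (β + t * δ) < s)).card : ℝ)
      ≤ (T * |δ| + 2) * (s / |δ| + 1) := by
  rcases lt_or_gt_of_ne hδ with h | h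
  · have h0 : 0 < -δ := by linarith
    have h1 := arc_pos (-δ) (β + (T - 1) * δ) s h0 hs T
    rw [abs_of_neg h]
    have h2 : ((range T).filter (fun t : ℕ => Int.fract (β + t * δ) < s)).card
        = ((range T).filter (fun t : ℕ =>
            Int.fract (β + (T - 1) * δ + t * (-δ)) < s)).card := by
      rw [Finset.card_filter, Finset.card_filter]
      rw [← Finset.sum_range_reflect]
      apply Finset.sum_congr rfl
      intro t ht
      rw [Finset.mem_range] at ht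
      have h3 : ((T - 1 - t : ℕ) : ℝ) = (T : ℝ) - 1 - t := by
        rw [Nat.cast_sub (by omega), Nat.cast_sub (by omega)]
        simp
      rw [h3]
      have h4 : β + ((T : ℝ) - 1 - t) * δ = β + (T - 1) * δ + t * (-δ) := by ring
      rw [h4]
    rw [h2]
    exact h1
  · rw [abs_of_pos h]
    exact arc_pos δ β s h hs T

/-- **Multiples of `θ` in an arc.** If `q θ = a + δ` with `M / q ≥ 1 / |δ|` and `|δ| ≤ s ≤ 1` then at
most `8 M s` of the numbers `m θ + x`, `m < M`, fall into a given arc of length `s`. -/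
theorem multiples_arc (θ x s : ℝ) (q M : ℕ) (a : ℤ) (hq : 1 ≤ q) (hδ0 : (q : ℝ) * θ - a ≠ 0)
    (hδs : |(q : ℝ) * θ - a| ≤ s) (hs1 : s ≤ 1) (hM : (q : ℝ) ≤ M * |(q : ℝ) * θ - a|) :
    (((range M).filter (fun m : ℕ => Int.fract ((m : ℝ) * θ + x) < s)).card : ℝ) ≤ 8 * M * s := by
  classical
  set δ := (q : ℝ) * θ - a with hδ
  have hq0 : (0 : ℝ) < q := by exact_mod_cast hq
  have hδp : 0 < |δ| := abs_pos.2 hδ0
  have hs0 : 0 < s := lt_of_lt_of_le hδp hδs
  have hsub : (range M).filter (fun m : ℕ => Int.fract ((m : ℝ) * θ + x) < s)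
      ⊆ (range q).biUnion (fun r => ((range (M / q + 1)).filter (fun t : ℕ =>
          Int.fract ((r : ℝ) * θ + x + t * δ) < s)).image (fun t => q * t + r)) := by
    intro m hm
    rw [Finset.mem_filter, Finset.mem_range] at hm
    rw [Finset.mem_biUnion]
    refine ⟨m % q, Finset.mem_range.2 (Nat.mod_lt _ (by omega)), ?_⟩
    rw [Finset.mem_image]
    refine ⟨m / q, ?_, ?_⟩
    · rw [Finset.mem_filter, Finset.mem_range]
      refine ⟨Nat.lt_succ_of_le (Nat.div_le_div_right hm.1.le), ?_⟩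
      have h1 : (m : ℝ) = q * (m / q : ℕ) + (m % q : ℕ) := by exact_mod_cast (Nat.div_add_mod m q).symm
      have h2 : ((m % q : ℕ) : ℝ) * θ + x + ((m / q : ℕ) : ℝ) * δ
          = ((m : ℝ) * θ + x) - ((((m / q : ℕ) : ℤ) * a : ℤ) : ℝ) := by
        rw [h1, hδ, Int.cast_mul, Int.cast_natCast]
        ring
      rw [h2, Int.fract_sub_intCast]
      exact hm.2
    · exact Nat.div_add_mod m q
  have h1 := Finset.card_le_card hsub
  have h2 : ((range q).biUnion (fun r => ((range (M / q + 1)).filter (fun t : ℕ =>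
          Int.fract ((r : ℝ) * θ + x + t * δ) < s)).image (fun t => q * t + r))).card
      ≤ ∑ r ∈ range q, ((range (M / q + 1)).filter (fun t : ℕ =>
          Int.fract ((r : ℝ) * θ + x + t * δ) < s)).card :=
    Finset.card_biUnion_le.trans (Finset.sum_le_sum fun r _ => Finset.card_image_le)
  have h3 : ((∑ r ∈ range q, ((range (M / q + 1)).filter (fun t : ℕ =>
          Int.fract ((r : ℝ) * θ + x + t * δ) < s)).card : ℕ) : ℝ)
      ≤ q * ((((M / q + 1 : ℕ) : ℝ) * |δ| + 2) * (s / |δ| + 1)) := by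
    rw [Nat.cast_sum]
    calc _ ≤ ∑ _r ∈ range q, ((((M / q + 1 : ℕ) : ℝ) * |δ| + 2) * (s / |δ| + 1)) := by
          apply Finset.sum_le_sum
          intro r _
          exact arc_any δ ((r : ℝ) * θ + x) s hδ0 hs0.le (M / q + 1)
      _ = _ := by
          rw [Finset.sum_const, Finset.card_range, nsmul_eq_mul]
  have h4 : ((M / q + 1 : ℕ) : ℝ) ≤ M / q + 1 := by
    push_cast
    have := @Nat.cast_div_le ℝ _ _ _ M q
    linarith
  have h5 : 1 ≤ (M : ℝ) / q * |δ| := by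
    rw [div_mul_eq_mul_div, le_div_iff₀ hq0]; linarith
  have hδ1 : |δ| ≤ 1 := hδs.trans hs1
  have h6 : ((M / q + 1 : ℕ) : ℝ) * |δ| + 2 ≤ 4 * ((M : ℝ) / q * |δ|) := by
    have : ((M / q + 1 : ℕ) : ℝ) * |δ| ≤ ((M : ℝ) / q + 1) * |δ| :=
      mul_le_mul_of_nonneg_right h4 hδp.le
    nlinarith
  have h7 : s / |δ| + 1 ≤ 2 * (s / |δ|) := by
    have : 1 ≤ s / |δ| := by rw [le_div_iff₀ hδp]; linarith
    linarith
  calc (((range M).filter (fun m : ℕ => Int.fract ((m : ℝ) * θ + x) < s)).card : ℝ)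
      ≤ ((∑ r ∈ range q, ((range (M / q + 1)).filter (fun t : ℕ =>
          Int.fract ((r : ℝ) * θ + x + t * δ) < s)).card : ℕ) : ℝ) := by exact_mod_cast h1.trans h2
    _ ≤ q * ((((M / q + 1 : ℕ) : ℝ) * |δ| + 2) * (s / |δ| + 1)) := h3
    _ ≤ q * ((4 * ((M : ℝ) / q * |δ|)) * (2 * (s / |δ|))) := by
        apply mul_le_mul_of_nonneg_left _ hq0.le
        apply mul_le_mul h6 h7 (by positivity) (by positivity)
    _ = 8 * M * s := by field_simp; ring

end Pool.Agent.W226.MP
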