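import Pool.Agent.W226.MP.Words

set_option autoImplicit false

namespace Pool.Agent.W226.MP

open Finset

/-- the value of the word `w 0 … w (k-1)` in base `b`, most significant digit first -/
def val (b : ℕ) (w : ℕ → ℕ) : ℕ → ℕ
  | 0 => 0
  | k + 1 => b * val b w k + w k

theorem val_lt (b : ℕ) (w : ℕ → ℕ) (hw : ∀ s, w s < b) (k : ℕ) : val b w k < b ^ k := by
  induction k with
  | zero => simp [val]
  | succ k ih =>
    rw [val, pow_succ']
    have := hw k
    calc b * val b w k + w k < b * val b w k + b := by omega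
      _ = b * (val b w k + 1) := by ring
      _ ≤ b * b ^ k := Nat.mul_le_mul_left _ ih

theorem floor_div_nat (z : ℝ) (b : ℕ) (hb : 0 < b) : ⌊z * b⌋ / (b : ℤ) = ⌊z⌋ := by
  have hbR : (0 : ℝ) < b := by exact_mod_cast hb
  symm
  rw [Int.floor_eq_iff]
  have h1 := Int.emod_add_mul_ediv ⌊z * b⌋ (b : ℤ)
  have h2 := Int.emod_nonneg ⌊z * b⌋ (by omega : (b : ℤ) ≠ 0)
  have h3 := Int.emod_lt_of_pos ⌊z * b⌋ (by omega : (0 : ℤ) < b)
  have h4 := Int.floor_le (z * b)
  have h5 := Int.lt_floor_add_one (z * b)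
  set e := ⌊z * b⌋ / (b : ℤ)
  constructor
  · have : (b : ℤ) * e ≤ ⌊z * b⌋ := by linarith
    have h6 : ((b : ℝ)) * e ≤ (⌊z * b⌋ : ℝ) := by exact_mod_cast this
    have h7 : (b : ℝ) * e ≤ b * z := by linarith
    exact le_of_mul_le_mul_left h7 hbR
  · have : ⌊z * b⌋ + 1 ≤ (b : ℤ) * (e + 1) := by linarith
    have h6 : (⌊z * b⌋ : ℝ) + 1 ≤ (b : ℝ) * (e + 1) := by exact_mod_cast this
    have h7 : (b : ℝ) * z < b * (e + 1) := by linarith
    exact lt_of_mul_lt_mul_left h7 hbR.le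

theorem emod_mul' (Z : ℤ) (b c : ℤ) (hb : 0 < b) (hc : 0 < c) :
    Z % (b * c) = b * (Z / b % c) + Z % b := by
  have h1 := Int.emod_add_mul_ediv Z b
  have h2 := Int.emod_add_mul_ediv (Z / b) c
  have h3 := Int.emod_nonneg Z hb.ne'
  have h4 := Int.emod_lt_of_pos Z hb
  have h5 := Int.emod_nonneg (Z / b) hc.ne'
  have h6 := Int.emod_lt_of_pos (Z / b) hc
  have h7 : Z = (b * (Z / b % c) + Z % b) + (b * c) * (Z / b / c) := by
    calc Z = Z % b + b * (Z / b) := h1.symm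
      _ = Z % b + b * (Z / b % c + c * (Z / b / c)) := by rw [h2]
      _ = _ := by ring
  have h8 : b * (Z / b % c) + Z % b < b * c := by nlinarith
  have h9 : 0 ≤ b * (Z / b % c) + Z % b := by positivity
  conv_lhs => rw [h7]
  rw [Int.add_mul_emod_self_left, Int.emod_eq_of_lt h9 h8]

/-- a block of digits at place `p` is a digit in base `b ^ k` -/
theorem occ_iff (b : ℕ) (hb : 0 < b) (w : ℕ → ℕ) (hw : ∀ s, w s < b) (y : ℝ) (p k : ℕ) :
    (∀ s < k, ⌊y * (b : ℝ) ^ (p + s + 1)⌋ % (b : ℤ) = w s) ↔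
      ⌊y * (b : ℝ) ^ (p + k)⌋ % ((b : ℤ) ^ k) = val b w k := by
  induction k with
  | zero => simp [val]
  | succ k ih =>
    have h1 : ⌊y * (b : ℝ) ^ (p + (k + 1))⌋ / (b : ℤ) = ⌊y * (b : ℝ) ^ (p + k)⌋ := by
      rw [← floor_div_nat (y * (b : ℝ) ^ (p + k)) b hb, ← add_assoc, pow_succ, mul_assoc]
    rw [pow_succ', emod_mul' _ _ _ (by exact_mod_cast hb) (by positivity), h1, val]
    constructor
    · intro h
      have h2 := (ih.1 (fun s hs => h s (by omega)))
      have h3 := h k (by omega)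
      rw [h2, ← add_assoc, h3]
      push_cast
      ring
    · intro h
      push_cast at h
      have a1 := Int.emod_nonneg ⌊y * (b : ℝ) ^ (p + (k + 1))⌋ (by omega : (b : ℤ) ≠ 0)
      have a2 := Int.emod_lt_of_pos ⌊y * (b : ℝ) ^ (p + (k + 1))⌋ (by omega : (0 : ℤ) < b)
      have a3 := hw k
      set u := ⌊y * (b : ℝ) ^ (p + k)⌋ % (b : ℤ) ^ k
      set v := ⌊y * (b : ℝ) ^ (p + (k + 1))⌋ % (b : ℤ)
      have h4 : u = val b w k := by
        have h5 : (b : ℤ) * (u - val b w k) = w k - v := by linarith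
        by_contra hne
        rcases lt_or_gt_of_ne hne with h6 | h6
        · have : u - val b w k ≤ -1 := by omega
          nlinarith
        · have : 1 ≤ u - val b w k := by omega
          nlinarith
      have h5 : v = w k := by rw [h4] at h; linarith
      intro s hs
      rcases Nat.lt_succ_iff_lt_or_eq.1 hs with h6 | h6
      · exact (ih.2 h4) s h6
      · rw [h6, add_assoc]; exact h5

/-- the digits in base `B` of `Y` are those of the integer part of `B ^ t` times the fractional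
part of `Y` -/
theorem digit_eq (B t : ℕ) (hB : 0 < B) (Y : ℝ) (u : ℕ) (hu : u < t) :
    ⌊Y * (B : ℝ) ^ (u + 1)⌋ % (B : ℤ)
      = ((⌊Int.fract Y * (B : ℝ) ^ t⌋₊ / B ^ (t - 1 - u) % B : ℕ) : ℤ) := by
  have hBR : (0 : ℝ) < B := by exact_mod_cast hB
  have h1 : ⌊Int.fract Y * (B : ℝ) ^ t⌋₊ / B ^ (t - 1 - u) = ⌊Int.fract Y * (B : ℝ) ^ (u + 1)⌋₊ := by
    rw [← Nat.floor_div_natCast]
    congr 1
    push_cast
    rw [div_eq_iff (by positivity), mul_assoc, ← pow_add]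
    congr 2
    omega
  have h2 : ⌊Y * (B : ℝ) ^ (u + 1)⌋ = ⌊Y⌋ * (B : ℤ) ^ (u + 1) + ⌊Int.fract Y * (B : ℝ) ^ (u + 1)⌋ := by
    have : Y * (B : ℝ) ^ (u + 1) = ((⌊Y⌋ * (B : ℤ) ^ (u + 1) : ℤ) : ℝ)
        + Int.fract Y * (B : ℝ) ^ (u + 1) := by
      push_cast
      rw [← add_mul, Int.floor_add_fract]
    rw [this, Int.floor_intCast_add]
  rw [h1, h2, pow_succ, ← mul_assoc, add_comm, Int.add_mul_emod_self_right]
  push_cast
  rw [Int.natCast_floor_eq_floor (by have := Int.fract_nonneg Y; positivity)]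

/-- counting digits in base `B` -/
theorem count_eq (B t a : ℕ) (hB : 0 < B) (Y : ℝ) :
    ((range t).filter (fun u => ⌊Y * (B : ℝ) ^ (u + 1)⌋ % (B : ℤ) = (a : ℤ))).card
      = cnt B a t ⌊Int.fract Y * (B : ℝ) ^ t⌋₊ := by
  unfold cnt
  rw [Finset.card_filter, Finset.card_filter, ← Finset.sum_range_reflect]
  apply Finset.sum_congr rfl
  intro u hu
  rw [Finset.mem_range] at hu
  rw [digit_eq B t hB Y (t - 1 - u) (by omega)]
  have : t - 1 - (t - 1 - u) = u := by omega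
  rw [this]
  congr 1
  exact propext Nat.cast_inj

/-- **Counting blocks.** -/
theorem count_close (b k : ℕ) (hb : 2 ≤ b) (hk : 1 ≤ k) (w : ℕ → ℕ) (hw : ∀ s, w s < b)
    (y : ℝ) (n l : ℕ) (ε : ℝ) (hε : 0 ≤ ε)
    (h : ∀ r < k, |(cnt (b ^ k) (val b w k) (l / k)
        ⌊Int.fract (y * (b : ℝ) ^ (n + r)) * ((b ^ k : ℕ) : ℝ) ^ (l / k)⌋₊ : ℝ)
          - (l / k : ℕ) / ((b ^ k : ℕ) : ℝ)| ≤ ε * (l / k : ℕ)) :
    |(((range l).filter (fun j =>
        ∀ s < k, ⌊y * (b : ℝ) ^ (n + j + s + 1)⌋ % (b : ℤ) = w s)).card : ℝ) - l / (b : ℝ) ^ k|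
      ≤ ε * l + k := by
  classical
  set t := l / k with ht
  set B := b ^ k with hBdef
  set a := val b w k with ha
  have hB0 : 0 < B := by positivity
  have hkt : k * t ≤ l := Nat.mul_div_le l k
  have hlt : l < k * t + k := by
    have h1 := Nat.div_add_mod l k
    have h2 := Nat.mod_lt l (by omega : 0 < k)
    rw [← ht] at h1
    omega
  let P : ℕ → Prop := fun j => ∀ s < k, ⌊y * (b : ℝ) ^ (n + j + s + 1)⌋ % (b : ℤ) = w s
  have hP : ∀ j, P j ↔ ⌊y * (b : ℝ) ^ (n + j + k)⌋ % (B : ℤ) = a := by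
    intro j
    have := occ_iff b (by omega) w hw y (n + j) k
    rw [hBdef]; push_cast; exact this
  have h1 : ∀ r < k, (∑ u ∈ range t, (if P (k * u + r) then (1 : ℝ) else 0))
      = (cnt B a t ⌊Int.fract (y * (b : ℝ) ^ (n + r)) * ((B : ℕ) : ℝ) ^ t⌋₊ : ℝ) := by
    intro r hr
    rw [← count_eq B t a hB0, Finset.card_filter]
    push_cast
    apply Finset.sum_congr rfl
    intro u _
    have e1 : y * (b : ℝ) ^ (n + r) * (B : ℝ) ^ (u + 1) = y * (b : ℝ) ^ (n + (k * u + r) + k) := by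
      rw [hBdef]; push_cast
      rw [← pow_mul, mul_assoc, ← pow_add]
      congr 2
      ring
    have e2 := hP (k * u + r)
    rw [← e1] at e2
    by_cases h3 : P (k * u + r)
    · rw [if_pos h3, if_pos (e2.1 h3)]
    · rw [if_neg h3, if_neg (fun h4 => h3 (e2.2 h4))]
  have h2 : (((range l).filter P).card : ℝ)
      = (∑ r ∈ range k, (cnt B a t ⌊Int.fract (y * (b : ℝ) ^ (n + r)) * ((B : ℕ) : ℝ) ^ t⌋₊ : ℝ))
        + ∑ j ∈ Finset.Ico (k * t) l, (if P j then (1 : ℝ) else 0) := by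
    rw [Finset.card_filter]
    push_cast
    rw [← Finset.sum_range_add_sum_Ico _ hkt]
    congr 1
    rw [sum_range_mul' _ _ _ (by omega : 0 < k), Finset.sum_comm]
    apply Finset.sum_congr rfl
    intro r hr
    exact h1 r (Finset.mem_range.1 hr)
  have h3 : 0 ≤ ∑ j ∈ Finset.Ico (k * t) l, (if P j then (1 : ℝ) else 0) := by
    apply Finset.sum_nonneg; intro j _; split_ifs <;> norm_num
  have h4 : ∑ j ∈ Finset.Ico (k * t) l, (if P j then (1 : ℝ) else 0) ≤ (l : ℝ) - k * t := by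
    calc ∑ j ∈ Finset.Ico (k * t) l, (if P j then (1 : ℝ) else 0)
        ≤ ∑ j ∈ Finset.Ico (k * t) l, (1 : ℝ) := by
          apply Finset.sum_le_sum; intro j _; split_ifs <;> norm_num
      _ = (l : ℝ) - k * t := by
          rw [Finset.sum_const, Nat.card_Ico, nsmul_eq_mul, mul_one, Nat.cast_sub hkt]
          push_cast; ring
  have h5 : |∑ r ∈ range k, ((cnt B a t ⌊Int.fract (y * (b : ℝ) ^ (n + r)) * ((B : ℕ) : ℝ) ^ t⌋₊ : ℝ)
      - t / (B : ℝ))| ≤ k * (ε * t) := by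
    refine (Finset.abs_sum_le_sum_abs _ _).trans ?_
    calc _ ≤ ∑ r ∈ range k, ε * (t : ℝ) := Finset.sum_le_sum (fun r hr => h r (Finset.mem_range.1 hr))
      _ = _ := by rw [Finset.sum_const, card_range, nsmul_eq_mul]
  rw [Finset.sum_sub_distrib, Finset.sum_const, card_range, nsmul_eq_mul] at h5
  have h6 : (b : ℝ) ^ k = (B : ℝ) := by rw [hBdef]; push_cast; rfl
  change |(((range l).filter P).card : ℝ) - l / (b : ℝ) ^ k| ≤ ε * l + k
  rw [h2, h6]
  have hktR : (k : ℝ) * t ≤ l := by exact_mod_cast hkt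
  have hltR : (l : ℝ) ≤ k * t + k := by exact_mod_cast hlt.le
  have hBR : (1 : ℝ) ≤ B := by exact_mod_cast hB0
  set S := ∑ r ∈ range k, (cnt B a t ⌊Int.fract (y * (b : ℝ) ^ (n + r)) * ((B : ℕ) : ℝ) ^ t⌋₊ : ℝ)
  set R := ∑ j ∈ Finset.Ico (k * t) l, (if P j then (1 : ℝ) else 0)
  have h7 : (l : ℝ) / B = k * (t / (B : ℝ)) + (l - k * t) / B := by field_simp; ring
  have h8 : 0 ≤ ((l : ℝ) - k * t) / B := div_nonneg (by linarith) (by linarith)
  have h9 : ((l : ℝ) - k * t) / B ≤ k := by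
    rw [div_le_iff₀ (by linarith)]
    have : (0 : ℝ) ≤ k := by positivity
    nlinarith
  have h10 : k * (ε * t) ≤ ε * l := by
    have := mul_le_mul_of_nonneg_left hktR hε
    linarith
  rw [h7]
  rw [abs_le] at h5 ⊢
  constructor
  · linarith [h5.1]
  · linarith [h5.2]

end Pool.Agent.W226.MP
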