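import Pool.Agent.W226.MP.Place
import Pool.Agent.W47.LC.EBound

set_option autoImplicit false

namespace Pool.Agent.W226.MP

open Finset

/-- Liouville's inequality for quadratic irrationals -/
theorem liouville2 (x : ℝ) (hx : Irrational x) (u v w : ℤ) (hu : u ≠ 0)
    (h : (u : ℝ) * x ^ 2 + v * x + w = 0) :
    ∃ c : ℝ, 0 < c ∧ ∀ q : ℕ, 1 ≤ q → ∀ p : ℤ, c ≤ (q : ℝ) ^ (1 : ℝ) * |q * x - p| := by
  open Polynomial in
  set f : ℤ[X] := C u * X ^ 2 + C v * X + C w with hf
  have hd : f.natDegree = 2 := natDegree_quadratic hu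
  have f0 : f ≠ 0 := by
    intro h0
    rw [h0, natDegree_zero] at hd
    omega
  obtain ⟨a, ha, hL⟩ := Liouville.exists_pos_real_of_irrational_root hx f0 (by
    rw [hf]
    simp only [Polynomial.map_add, Polynomial.map_mul, Polynomial.map_pow, Polynomial.map_C,
      Polynomial.map_X, eval_add, eval_mul, eval_pow, eval_C, eval_X]
    simpa using h)
  refine ⟨1 / a, by positivity, fun q hq p => ?_⟩
  have h1 := hL p (q - 1)
  have hqR : (0 : ℝ) < q := by exact_mod_cast hq
  have e1 : (((q - 1 : ℕ) : ℝ) + 1) = q := by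
    rw [Nat.cast_sub hq]
    push_cast
    ring
  rw [e1, hd] at h1
  have e2 : |x - p / q| = |q * x - p| / q := by
    rw [← abs_of_pos hqR, ← abs_div, abs_of_pos hqR]
    congr 1
    field_simp
  rw [e2] at h1
  rw [div_le_iff₀ ha, Real.rpow_one]
  calc (1 : ℝ) ≤ (q : ℝ) ^ 2 * (|q * x - p| / q * a) := h1
    _ = (q : ℝ) * |q * x - p| * a := by field_simp

/-- good places of `e` -/
theorem place_e : ∃ C : ℝ, ∀ b : ℕ, 2 ≤ b → ∀ L N : ℕ, ∃ n : ℕ, N ≤ n ∧
      (n : ℝ) ≤ 2 * N + L + 2 * Real.log (1 + L + N) + C ∧ GoodPlace b (Real.exp 1) L n := by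
  have hl2 : 0 < Real.log 2 := Real.log_pos (by norm_num)
  have hl2' : (1 / 2 : ℝ) ≤ Real.log 2 := by have := Real.log_two_gt_d9; linarith
  have hirr : Irrational (Real.exp 1) := by
    intro ⟨r, hr⟩
    have h1 := Pool.Agent.W47.LC.eBound r.den r.den_pos r.num
    have h2 : (r.den : ℝ) * Real.exp 1 - r.num = 0 := by
      rw [← hr]
      have := Rat.mul_den_eq_num r
      have h3 : (r : ℝ) * r.den = r.num := by exact_mod_cast this
      linarith
    rw [h2, abs_zero, mul_zero] at h1
    norm_num at h1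
  refine ⟨(Real.log 1000 + 3) / Real.log 2 + 2, fun b hb L N => ?_⟩
  obtain ⟨i, ⟨q, hq1, hq2, a, ha⟩, hg⟩ := place b L hb (Real.exp 1) hirr N
  refine ⟨N + i, by omega, ?_, hg⟩
  have hb2 : (2 : ℝ) ≤ b := by exact_mod_cast hb
  have hb0 : (0 : ℝ) < b := by linarith
  have hlb : Real.log 2 ≤ Real.log b := Real.log_le_log (by norm_num) hb2
  have hlb0 : 0 < Real.log b := lt_of_lt_of_le hl2 hlb
  have hqN : 1 ≤ q * b ^ N := Nat.mul_pos hq1 (by positivity)
  have h1 := Pool.Agent.W47.LC.eBound (q * b ^ N) hqN a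
  set X : ℝ := ((q * b ^ N : ℕ) : ℝ) with hX
  have hX1 : (1 : ℝ) ≤ X := by rw [hX]; exact_mod_cast hqN
  have hlX : 0 ≤ Real.log X := Real.log_nonneg hX1
  have hXle : X ≤ 2 * (b : ℝ) ^ (L + N) := by
    have h2 : q * b ^ N ≤ 2 * b ^ (L + N) := by
      rw [pow_add, ← mul_assoc]
      exact Nat.mul_le_mul_right _ hq2.le
    rw [hX]; exact_mod_cast h2
  have hlXle : Real.log X ≤ Real.log 2 + (L + N) * Real.log b := by
    have h5 := Real.log_le_log (by linarith) hXle
    rw [Real.log_mul (by norm_num) (by positivity), Real.log_pow] at h5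
    push_cast at h5
    exact h5
  rw [pow_one] at h1
  have h2 : (b : ℝ) ^ i * (1 / 1000) ≤ X * (1 + Real.log X) := by
    calc (b : ℝ) ^ i * (1 / 1000) ≤ (b : ℝ) ^ i * (X * (1 + Real.log X) * |X * Real.exp 1 - a|) :=
          mul_le_mul_of_nonneg_left h1 (by positivity)
      _ = X * (1 + Real.log X) * ((b : ℝ) ^ i * |X * Real.exp 1 - a|) := by ring
      _ ≤ X * (1 + Real.log X) * 1 := mul_le_mul_of_nonneg_left ha (by positivity)
      _ = _ := mul_one _
  have hLN : (0 : ℝ) ≤ L + N := by positivity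
  have h6 : 1 + Real.log X ≤ 2 * (1 + L + N) * (1 + Real.log b) := by
    have h7 : Real.log 2 ≤ 1 := by have := Real.log_two_lt_d9; linarith
    nlinarith
  have h8 : Real.log (1 + Real.log b) ≤ Real.log b := by
    have := Real.add_one_le_exp (Real.log b)
    rw [Real.exp_log hb0] at this
    exact Real.log_le_log (by linarith) (by linarith)
  have h3 : (i : ℝ) * Real.log b ≤ Real.log 1000 + (Real.log 2 + (L + N) * Real.log b)
      + (Real.log 2 + Real.log (1 + L + N) + Real.log b) := by
    have h4 := Real.log_le_log (by positivity) h2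
    rw [Real.log_mul (by positivity) (by norm_num), Real.log_pow,
      Real.log_mul (by positivity) (by positivity), one_div, Real.log_inv] at h4
    have h9 := Real.log_le_log (by positivity) h6
    rw [Real.log_mul (by positivity) (by positivity), Real.log_mul (by norm_num) (by positivity)] at h9
    linarith
  have hlLN : 0 ≤ Real.log (1 + L + N) := Real.log_nonneg (by linarith)
  have hl1000 : 0 ≤ Real.log 1000 := Real.log_nonneg (by norm_num)
  have h4 : (i : ℝ) * Real.log b ≤ (L + N + 2 * Real.log (1 + L + N)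
      + ((Real.log 1000 + 3) / Real.log 2 + 2)) * Real.log b := by
    have h5 : Real.log 1000 + 3 ≤ (Real.log 1000 + 3) / Real.log 2 * Real.log b := by
      rw [div_mul_eq_mul_div, le_div_iff₀ hl2]
      exact mul_le_mul_of_nonneg_left hlb (by positivity)
    have h7 : Real.log 2 ≤ 1 := by have := Real.log_two_lt_d9; linarith
    have h10 : Real.log (1 + L + N) ≤ 2 * Real.log (1 + L + N) * Real.log b := by nlinarith
    nlinarith
  have h5 := le_of_mul_le_mul_right h4 hlb0
  push_cast
  linarith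

end Pool.Agent.W226.MP
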