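import Pool.Agent.W226.MP.Main

set_option autoImplicit false

namespace Pool.Agent.W226.MP

open Finset

/-- the theorem on frequencies, for numbers with irrationality exponent at most `6.05` -/
theorem final (b k : ℕ) (hb : 2 ≤ b) (hk : 1 ≤ k) (α c0 : ℝ) (hc0 : 0 < c0)
    (hα : ∀ q : ℕ, 1 ≤ q → ∀ p : ℤ, c0 ≤ (q : ℝ) ^ (5.05 : ℝ) * |q * α - p|)
    (ε : ℝ) (hε : 0 < ε) :
    ∃ c : ℝ, 0 < c ∧ ∃ M₀ : ℕ, ∀ M : ℕ, M₀ ≤ M → 4 ≤ Nat.log b M ∧ ∀ N : ℕ,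
    ∃ n : ℕ, N ≤ n ∧ (n : ℝ) ≤ 6.05 * N + 2 * Nat.log b M ∧ ∀ x : ℝ, ∀ S : Finset ℕ,
      (∀ m ∈ S, m < M ∧ ∃ w : ℕ → ℕ, (∀ s, w s < b) ∧ ε * (Nat.log b M / 4 : ℕ) <
        |(((range (Nat.log b M / 4)).filter (fun j =>
          ∀ s < k, ⌊(x + m * α) * (b : ℝ) ^ (n + j + s + 1)⌋ % (b : ℤ) = w s)).card : ℝ)
            - (Nat.log b M / 4 : ℕ) / (b : ℝ) ^ k|) →
      (S.card : ℝ) ≤ (M : ℝ) ^ (1 - c) := by
  have hbR : (1 : ℝ) < b := by exact_mod_cast (by omega : 1 < b)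
  have hb0 : (0 : ℝ) < b := by linarith
  have hlogb : 0 < Real.log b := Real.log_pos hbR
  have hkR : (1 : ℝ) ≤ k := by exact_mod_cast hk
  set ε' : ℝ := min ε 1 / 2 with hε'
  have hε'0 : 0 < ε' := by rw [hε']; have := lt_min hε one_pos; linarith
  have hε'1 : ε' ≤ 1 := by rw [hε']; have := min_le_right ε 1; linarith
  have hε'2 : 2 * ε' ≤ ε := by rw [hε']; have := min_le_left ε 1; linarith
  set c : ℝ := ε' ^ 2 / (32 * k * Real.log b) with hc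
  have hc0' : 0 < c := by rw [hc]; positivity
  have hev : ∀ᶠ M : ℕ in Filter.atTop,
      16 * k * ((b ^ k : ℕ) : ℝ) * Real.exp (ε' ^ 2 / 4) ≤ (M : ℝ) ^ c :=
    ((tendsto_rpow_atTop hc0').comp tendsto_natCast_atTop_atTop).eventually_ge_atTop _
  obtain ⟨M1, hM1⟩ := Filter.eventually_atTop.1 hev
  set L0 : ℕ := max (12 * (k + 1)) (max (4 * ⌈(k : ℝ) / ε'⌉₊) ⌈-Real.log c0 / (0.65 * Real.log b)⌉₊)
    with hL0
  refine ⟨c, hc0', max M1 (b ^ L0), fun M hM => ?_⟩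
  have hMM1 : M1 ≤ M := (le_max_left _ _).trans hM
  have hMb : b ^ L0 ≤ M := (le_max_right _ _).trans hM
  have hMpos : 0 < M := lt_of_lt_of_le (by positivity) hMb
  have hMR : (0 : ℝ) < M := by exact_mod_cast hMpos
  set L := Nat.log b M with hL
  have hLL0 : L0 ≤ L := Nat.le_log_of_pow_le (by omega) hMb
  have hL1 : 12 * (k + 1) ≤ L := (le_max_left _ _).trans hLL0
  have hL2 : 4 * ⌈(k : ℝ) / ε'⌉₊ ≤ L := ((le_max_left _ _).trans (le_max_right _ _)).trans hLL0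
  have hL3 : ⌈-Real.log c0 / (0.65 * Real.log b)⌉₊ ≤ L :=
    ((le_max_right _ _).trans (le_max_right _ _)).trans hLL0
  refine ⟨by omega, fun N => ?_⟩
  obtain ⟨n, hn1, hn2, hn3⟩ := main_M b k hb hk α c0 hc0 hα ε' hε'0 hε'1 M hMpos.ne' hL1 (by
    have h1 : ⌈(k : ℝ) / ε'⌉₊ ≤ L / 4 := by omega
    have h2 : (k : ℝ) / ε' ≤ (L / 4 : ℕ) := (Nat.le_ceil _).trans (by exact_mod_cast h1)
    rw [div_le_iff₀ hε'0] at h2
    linarith) (by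
    have h2 : -Real.log c0 / (0.65 * Real.log b) ≤ L := (Nat.le_ceil _).trans (by exact_mod_cast hL3)
    rw [div_le_iff₀ (by positivity)] at h2
    linarith) N
  refine ⟨n, hn1, hn2, fun x S hS => ?_⟩
  have hl0 : (0 : ℝ) ≤ (L / 4 : ℕ) := by positivity
  have h1 := hn3 x S (fun m hm => by
    obtain ⟨h1, w, hw, h2⟩ := hS m hm
    refine ⟨h1, w, hw, lt_of_le_of_lt ?_ h2⟩
    exact mul_le_mul_of_nonneg_right hε'2 hl0)
  refine h1.trans ?_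
  set t : ℕ := L / 4 / k with ht
  have h2 : L + 1 ≤ 4 * k * (t + 1) := by
    have a1 := Nat.div_add_mod L 4
    have a2 := Nat.mod_lt L (by omega : 0 < 4)
    have a3 := Nat.div_add_mod (L / 4) k
    have a4 := Nat.mod_lt (L / 4) (by omega : 0 < k)
    rw [← ht] at a3
    have a5 : L / 4 + 1 ≤ k * (t + 1) := by rw [mul_add, mul_one]; omega
    calc L + 1 ≤ 4 * (L / 4 + 1) := by omega
      _ ≤ 4 * (k * (t + 1)) := Nat.mul_le_mul_left _ a5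
      _ = _ := by ring
  have h3 : M < b ^ (L + 1) := Nat.lt_pow_succ_log_self (by omega) M
  have h4 : Real.log M ≤ 4 * k * (t + 1) * Real.log b := by
    have h5 : (M : ℝ) ≤ (b : ℝ) ^ (4 * k * (t + 1)) := by
      exact_mod_cast h3.le.trans (Nat.pow_le_pow_right (by omega) h2)
    have h6 := Real.log_le_log hMR h5
    rw [Real.log_pow] at h6
    push_cast at h6
    exact h6
  have h5 : 2 * c * Real.log M ≤ ε' ^ 2 / 4 * (t + 1) := by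
    have e1 : 2 * c * (4 * k * (t + 1) * Real.log b) = ε' ^ 2 / 4 * (t + 1) := by
      rw [hc]; field_simp; ring
    rw [← e1]
    exact mul_le_mul_of_nonneg_left h4 (by positivity)
  have h6 : Real.exp (-(ε' ^ 2 / 4) * t) ≤ Real.exp (ε' ^ 2 / 4) * (M : ℝ) ^ (-(2 * c)) := by
    rw [Real.rpow_def_of_pos hMR, ← Real.exp_add]
    apply Real.exp_le_exp.2
    linarith
  have h7 := hM1 M hMM1
  calc 16 * k * ((b ^ k : ℕ) : ℝ) * M * Real.exp (-(ε' ^ 2 / 4) * t)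
      ≤ 16 * k * ((b ^ k : ℕ) : ℝ) * M * (Real.exp (ε' ^ 2 / 4) * (M : ℝ) ^ (-(2 * c))) :=
        mul_le_mul_of_nonneg_left h6 (by positivity)
    _ = (16 * k * ((b ^ k : ℕ) : ℝ) * Real.exp (ε' ^ 2 / 4)) * (M * (M : ℝ) ^ (-(2 * c))) := by ring
    _ ≤ (M : ℝ) ^ c * (M * (M : ℝ) ^ (-(2 * c))) :=
        mul_le_mul_of_nonneg_right h7 (by positivity)
    _ = (M : ℝ) ^ (1 - c) := by
        rw [show (1 - c : ℝ) = c + (1 + -(2 * c)) by ring, Real.rpow_add hMR, Real.rpow_add hMR,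
          Real.rpow_one]

/-- almost all multiples contain all blocks infinitely often -/
theorem final2 (b k : ℕ) (hb : 2 ≤ b) (hk : 1 ≤ k) (α c0 : ℝ) (hc0 : 0 < c0)
    (hα : ∀ q : ℕ, 1 ≤ q → ∀ p : ℤ, c0 ≤ (q : ℝ) ^ (5.05 : ℝ) * |q * α - p|) :
    ∃ c : ℝ, 0 < c ∧ ∃ M₀ : ℕ, ∀ M : ℕ, M₀ ≤ M → ∀ x : ℝ, ∀ S : Finset ℕ,
      (∀ m ∈ S, m < M ∧ ∃ w : ℕ → ℕ, (∀ s, w s < b) ∧
        {p : ℕ | ∀ s < k, ⌊(x + m * α) * (b : ℝ) ^ (p + s + 1)⌋ % (b : ℤ) = w s}.Finite) →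
      (S.card : ℝ) ≤ (M : ℝ) ^ (1 - c) := by
  have hb0 : (0 : ℝ) < b := by exact_mod_cast (by omega : 0 < b)
  obtain ⟨c, hc, M₀, h⟩ := final b k hb hk α c0 hc0 hα (1 / (2 * (b : ℝ) ^ k)) (by positivity)
  refine ⟨c, hc, M₀, fun M hM x S hS => ?_⟩
  obtain ⟨hL, h1⟩ := h M hM
  -- a bound for all last occurrences
  have h2 : ∀ m ∈ S, ∃ N : ℕ, ∃ w : ℕ → ℕ, (∀ s, w s < b) ∧ ∀ p : ℕ, N ≤ p →
      ¬ ∀ s < k, ⌊(x + m * α) * (b : ℝ) ^ (p + s + 1)⌋ % (b : ℤ) = w s := by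
    intro m hm
    obtain ⟨_, w, hw, hfin⟩ := hS m hm
    obtain ⟨N, hN⟩ := hfin.bddAbove
    refine ⟨N + 1, w, hw, fun p hp hcon => ?_⟩
    have := hN hcon
    omega
  choose! f hf using h2
  obtain ⟨n, hn1, _, hn3⟩ := h1 (S.sup f)
  apply hn3 x S
  intro m hm
  obtain ⟨w, hw, hno⟩ := hf m hm
  refine ⟨(hS m hm).1, w, hw, ?_⟩
  have h3 : (range (Nat.log b M / 4)).filter (fun j =>
      ∀ s < k, ⌊(x + m * α) * (b : ℝ) ^ (n + j + s + 1)⌋ % (b : ℤ) = w s) = ∅ := by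
    apply Finset.filter_eq_empty_iff.2
    intro j _
    apply hno
    have := Finset.le_sup (f := f) hm
    omega
  rw [h3, Finset.card_empty, Nat.cast_zero, zero_sub, abs_neg,
    abs_of_nonneg (by positivity)]
  have h4 : (1 : ℝ) ≤ (Nat.log b M / 4 : ℕ) := by exact_mod_cast (by omega : 1 ≤ Nat.log b M / 4)
  have h5 : 1 / (2 * (b : ℝ) ^ k) * (Nat.log b M / 4 : ℕ) = (Nat.log b M / 4 : ℕ) / (b : ℝ) ^ k / 2 := by
    field_simp
  rw [h5]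
  have h6 : 0 < ((Nat.log b M / 4 : ℕ) : ℝ) / (b : ℝ) ^ k := by positivity
  linarith

end Pool.Agent.W226.MP
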