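import Pool.Agent.W226.MP.Sharp2

set_option autoImplicit false

namespace Pool.Agent.W226.MP

open Finset

theorem cnt_mod (B a t z : ℕ) (hB : 0 < B) : cnt B a t (z % B ^ t) = cnt B a t z := by
  unfold cnt
  congr 1
  apply Finset.filter_congr
  intro j hj
  rw [Finset.mem_range] at hj
  have e : B ^ t = B ^ j * B ^ (t - j) := by rw [← pow_add]; congr 1; omega
  rw [e, Nat.mod_mul_right_div_self, Nat.mod_mod_of_dvd _ (dvd_pow_self B (by omega))]

/-- the digits at the places `r + 1, …, r + K` as digits of the word of length `L` -/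
theorem sub_word (b L r K d : ℕ) (hb : 0 < b) (hL : L = r + K + d) (Y : ℝ) :
    ⌊Int.fract (Y * (b : ℝ) ^ r) * (b : ℝ) ^ K⌋₊
      = ⌊Int.fract Y * (b : ℝ) ^ L⌋₊ / b ^ d % b ^ K := by
  have h1 := word_eq b K hb (Y * (b : ℝ) ^ r)
  have h2 := word_eq b L hb Y
  have hbd : (0 : ℤ) < (b : ℤ) ^ d := by positivity
  set z := ⌊Int.fract Y * (b : ℝ) ^ L⌋₊
  set Z := ⌊Y * (b : ℝ) ^ L⌋ with hZ
  have h3 : ⌊Y * (b : ℝ) ^ r * (b : ℝ) ^ K⌋ = Z / (b : ℤ) ^ d := by
    have e1 : Y * (b : ℝ) ^ r * (b : ℝ) ^ K = Y * (b : ℝ) ^ L / ((b ^ d : ℕ) : ℝ) := by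
      rw [hL]; push_cast
      have : (b : ℝ) ^ d ≠ 0 := by
        have : (0 : ℝ) < b := by exact_mod_cast hb
        positivity
      rw [eq_div_iff this, pow_add, pow_add]; ring
    rw [e1, Int.floor_div_natCast]
    push_cast
    rfl
  have h4 := Int.emod_add_mul_ediv Z ((b : ℤ) ^ L)
  rw [h2] at h4
  have h5 : Z / (b : ℤ) ^ d = (z : ℤ) / (b : ℤ) ^ d + (b : ℤ) ^ K * ((b : ℤ) ^ r * (Z / (b : ℤ) ^ L)) := by
    conv_lhs => rw [← h4]
    have e1 : (b : ℤ) ^ L * (Z / (b : ℤ) ^ L)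
        = (b : ℤ) ^ d * ((b : ℤ) ^ K * ((b : ℤ) ^ r * (Z / (b : ℤ) ^ L))) := by
      rw [hL, pow_add, pow_add]; ring
    rw [e1, Int.add_mul_ediv_left _ _ hbd.ne']
  rw [h3, h5, Int.add_mul_emod_self_left] at h1
  have h6 : ((z / b ^ d % b ^ K : ℕ) : ℤ) = ((⌊Int.fract (Y * (b : ℝ) ^ r) * (b : ℝ) ^ K⌋₊ : ℕ) : ℤ) := by
    rw [← h1]; push_cast; rfl
  exact_mod_cast h6.symm

/-- words of length `L` with a wrong frequency -/
theorem bad_z (b k t r d a : ℕ) (hb : 2 ≤ b) (hk : 1 ≤ k) (ha : a < b ^ k) (ε : ℝ) (hε : 0 < ε)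
    (hε1 : ε ≤ 1) :
    (((range (b ^ (r + k * t + d))).filter (fun z : ℕ =>
      ε * t < |(cnt (b ^ k) a t (z / b ^ d) : ℝ) - t / ((b ^ k : ℕ) : ℝ)|)).card : ℝ)
      ≤ 2 * Real.exp (-(ε ^ 2 / 4) * t) * (b : ℝ) ^ (r + k * t + d) := by
  classical
  have hb0 : 0 < b := by omega
  set B := b ^ k with hB
  have hB2 : 2 ≤ B := by
    calc 2 ≤ b := hb
      _ = b ^ 1 := (pow_one b).symm
      _ ≤ b ^ k := Nat.pow_le_pow_right (by omega) hk
  have h0 := bad_words B a hB2 ha ε hε hε1 t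
  rw [Finset.card_filter] at h0 ⊢
  push_cast at h0 ⊢
  have hBt : B ^ t = b ^ (k * t) := by rw [hB, pow_mul]
  have e1 : b ^ (r + k * t + d) = b ^ d * (b ^ (k * t) * b ^ r) := by
    rw [pow_add, pow_add]; ring
  have hdpos : 0 < b ^ d := by positivity
  rw [e1, sum_range_mul' _ _ _ hdpos]
  have e2 : ∀ z ∈ range (b ^ (k * t) * b ^ r), ∑ c ∈ range (b ^ d),
      (if ε * (t : ℝ) < |(cnt B a t ((b ^ d * z + c) / b ^ d) : ℝ) - t / (B : ℝ)| then (1 : ℝ) else 0)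
      = (b : ℝ) ^ d * (if ε * (t : ℝ) < |(cnt B a t z : ℝ) - t / (B : ℝ)| then (1 : ℝ) else 0) := by
    intro z _
    have e3 : ∀ c ∈ range (b ^ d), (if ε * (t : ℝ) < |(cnt B a t ((b ^ d * z + c) / b ^ d) : ℝ)
        - t / (B : ℝ)| then (1 : ℝ) else 0)
        = (if ε * (t : ℝ) < |(cnt B a t z : ℝ) - t / (B : ℝ)| then (1 : ℝ) else 0) := by
      intro c hc
      rw [Finset.mem_range] at hc
      rw [Nat.mul_add_div hdpos, Nat.div_eq_of_lt hc, add_zero]
    rw [Finset.sum_congr rfl e3, Finset.sum_const, card_range, nsmul_eq_mul]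
    push_cast; rfl
  rw [Finset.sum_congr rfl e2, ← Finset.mul_sum, sum_range_mul' _ _ _ (by positivity)]
  have e4 : ∀ c ∈ range (b ^ r), ∑ v ∈ range (b ^ (k * t)),
      (if ε * (t : ℝ) < |(cnt B a t (b ^ (k * t) * c + v) : ℝ) - t / (B : ℝ)| then (1 : ℝ) else 0)
      = ∑ v ∈ range (B ^ t),
        (if ε * (t : ℝ) < |(cnt B a t v : ℝ) - t / (B : ℝ)| then (1 : ℝ) else 0) := by
    intro c _
    rw [hBt]
    apply Finset.sum_congr rfl
    intro v hv
    rw [Finset.mem_range] at hv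
    have e5 : cnt B a t (b ^ (k * t) * c + v) = cnt B a t v := by
      rw [← cnt_mod B a t (b ^ (k * t) * c + v) (by omega), hBt, Nat.mul_add_mod,
        Nat.mod_eq_of_lt hv]
    rw [e5]
  rw [Finset.sum_congr rfl e4, Finset.sum_const, card_range, nsmul_eq_mul]
  push_cast
  calc (b : ℝ) ^ d * ((b : ℝ) ^ r * ∑ v ∈ range (B ^ t),
        (if ε * (t : ℝ) < |(cnt B a t v : ℝ) - t / (B : ℝ)| then (1 : ℝ) else 0))
      ≤ (b : ℝ) ^ d * ((b : ℝ) ^ r * (2 * Real.exp (-(ε ^ 2 / 4) * t) * (B : ℝ) ^ t)) := by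
        apply mul_le_mul_of_nonneg_left _ (by positivity)
        exact mul_le_mul_of_nonneg_left h0 (by positivity)
    _ = 2 * Real.exp (-(ε ^ 2 / 4) * t) * (b : ℝ) ^ (r + k * t + d) := by
        have : (B : ℝ) ^ t = (b : ℝ) ^ (k * t) := by exact_mod_cast congrArg (Nat.cast (R := ℝ)) hBt
        rw [this, pow_add, pow_add]; ring

/-- **Frequencies.** -/
theorem freq (b k L : ℕ) (hb : 2 ≤ b) (hk : 1 ≤ k) (hkL : k ≤ L) (α : ℝ) (n : ℕ) (r₀ : ℚ)
    (h : Good b (b ^ L) (α * (b : ℝ) ^ n) r₀) (x : ℝ) (ε : ℝ) (hε : 0 < ε) (hε1 : ε ≤ 1)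
    (S : Finset ℕ)
    (hS : ∀ m ∈ S, m < b ^ L ∧ ∃ w : ℕ → ℕ, (∀ s, w s < b) ∧ ε * (L + 1 - k : ℕ) + k <
        |(((range (L + 1 - k)).filter (fun j =>
          ∀ s < k, ⌊(x + m * α) * (b : ℝ) ^ (n + j + s + 1)⌋ % (b : ℤ) = w s)).card : ℝ)
            - (L + 1 - k : ℕ) / (b : ℝ) ^ k|) :
    (S.card : ℝ) ≤ 4 * k * (b : ℝ) ^ (k + 1)
      * Real.exp (-(ε ^ 2 / 4) * ((L + 1 - k) / k : ℕ)) * (b : ℝ) ^ L := by
  classical
  have hb0 : 0 < b := by omega
  set l := L + 1 - k with hl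
  set t := l / k with ht
  set B := b ^ k with hB
  have hkt : k * t ≤ l := Nat.mul_div_le l k
  let zz : ℕ → ℕ := fun m => ⌊Int.fract (x * (b : ℝ) ^ n + m * (α * (b : ℝ) ^ n))
    * ((b ^ L : ℕ) : ℝ)⌋₊
  let Zb : ℕ → ℕ → Finset ℕ := fun r a => (range (b ^ L)).filter (fun z : ℕ =>
      ε * t < |(cnt B a t (z / b ^ (L - r - k * t)) : ℝ) - t / ((B : ℕ) : ℝ)|)
  let T : ℕ → Finset ℕ := fun z => (range (b ^ L)).filter (fun m : ℕ => zz m = z)
  have hT : ∀ z, (T z).card ≤ 2 * b := fun z =>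
    cell_le b (b ^ L) hb (Nat.one_le_pow _ _ hb0) (α * (b : ℝ) ^ n) r₀ h (x * (b : ℝ) ^ n) z
  have hZb : ∀ r < k, ∀ a < B, ((Zb r a).card : ℝ) ≤ 2 * Real.exp (-(ε ^ 2 / 4) * t) * (b : ℝ) ^ L := by
    intro r hr a ha
    have h1 := bad_z b k t r (L - r - k * t) a hb hk ha ε hε hε1
    have e : r + k * t + (L - r - k * t) = L := by omega
    rw [e] at h1
    exact h1
  have hsub : S ⊆ (range k).biUnion (fun r => (range B).biUnion (fun a => (Zb r a).biUnion T)) := by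
    intro m hm
    obtain ⟨hmM, w, hw, hlt⟩ := hS m hm
    by_contra hcon
    have h1 := count_close b k hb hk w hw (x + m * α) n l ε hε.le (by
      intro r hr
      by_contra hlt2
      push Not at hlt2
      apply hcon
      simp only [Finset.mem_biUnion]
      have hr1 : r + k * t ≤ L := by omega
      refine ⟨r, Finset.mem_range.2 hr, val b w k, Finset.mem_range.2 (val_lt b w hw k), zz m, ?_, ?_⟩
      · rw [Finset.mem_filter, Finset.mem_range]
        constructor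
        · change ⌊Int.fract (x * (b : ℝ) ^ n + m * (α * (b : ℝ) ^ n)) * ((b ^ L : ℕ) : ℝ)⌋₊ < b ^ L
          have h3 := Int.fract_nonneg (x * (b : ℝ) ^ n + m * (α * (b : ℝ) ^ n))
          have h4 := Int.fract_lt_one (x * (b : ℝ) ^ n + m * (α * (b : ℝ) ^ n))
          have h5 : (0 : ℝ) < ((b ^ L : ℕ) : ℝ) := by positivity
          rw [Nat.floor_lt (by positivity)]
          nlinarith
        · have e1 : (x + m * α) * (b : ℝ) ^ (n + r) = ((x + m * α) * (b : ℝ) ^ n) * (b : ℝ) ^ r := by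
            rw [pow_add]; ring
          have e2 : ((b ^ k : ℕ) : ℝ) ^ (l / k) = (b : ℝ) ^ (k * t) := by
            push_cast; rw [← pow_mul]
          have e3 : (x + m * α) * (b : ℝ) ^ n = x * (b : ℝ) ^ n + m * (α * (b : ℝ) ^ n) := by ring
          rw [e1, e2, sub_word b L r (k * t) (L - r - k * t) hb0 (by omega), e3] at hlt2
          have e4 : zz m = ⌊Int.fract (x * (b : ℝ) ^ n + m * (α * (b : ℝ) ^ n)) * (b : ℝ) ^ L⌋₊ := by
            change ⌊_ * ((b ^ L : ℕ) : ℝ)⌋₊ = _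
            rw [Nat.cast_pow]
          rw [e4]
          have e5 : b ^ (k * t) = B ^ t := by rw [hB, pow_mul]
          rw [e5, ← ht, cnt_mod B _ t _ (by positivity)] at hlt2
          exact hlt2
      · rw [Finset.mem_filter, Finset.mem_range]
        exact ⟨hmM, rfl⟩)
    linarith
  have h1 : (S.card : ℝ) ≤ ∑ r ∈ range k, ∑ a ∈ range B, ((Zb r a).card : ℝ) * (2 * b) := by
    have h2 : S.card ≤ ∑ r ∈ range k, ∑ a ∈ range B, (Zb r a).card * (2 * b) := by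
      refine (Finset.card_le_card hsub).trans (Finset.card_biUnion_le.trans ?_)
      apply Finset.sum_le_sum; intro r _
      refine Finset.card_biUnion_le.trans ?_
      apply Finset.sum_le_sum; intro a _
      exact Finset.card_biUnion_le_card_mul _ _ _ (fun z _ => hT z)
    exact_mod_cast h2
  refine h1.trans ?_
  calc ∑ r ∈ range k, ∑ a ∈ range B, ((Zb r a).card : ℝ) * (2 * b)
      ≤ ∑ r ∈ range k, ∑ a ∈ range B, (2 * Real.exp (-(ε ^ 2 / 4) * t) * (b : ℝ) ^ L) * (2 * b) :=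
        Finset.sum_le_sum (fun r hr => Finset.sum_le_sum (fun a ha =>
          mul_le_mul_of_nonneg_right (hZb r (Finset.mem_range.1 hr) a (Finset.mem_range.1 ha))
            (by positivity)))
    _ = _ := by
        rw [Finset.sum_const, Finset.sum_const, card_range, card_range, nsmul_eq_mul, nsmul_eq_mul, hB]
        push_cast
        ring

end Pool.Agent.W226.MP
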