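import Pool.Agent.W226.MP.Arc
import Pool.Agent.W226.MP.Digits

set_option autoImplicit false

namespace Pool.Agent.W226.MP

open Finset

/-- few multiples have a digit pattern with wrong frequencies -/
theorem bad_multiples (b k : ℕ) (hb : 2 ≤ b) (hk : 1 ≤ k) (ε : ℝ) (hε : 0 < ε) (hε1 : ε ≤ 1)
    (α x : ℝ) (n t q M : ℕ) (hq : 1 ≤ q)
    (h : ∀ r < k, ∃ a : ℤ, (q : ℝ) * (α * (b : ℝ) ^ (n + r)) - a ≠ 0 ∧
      |(q : ℝ) * (α * (b : ℝ) ^ (n + r)) - a| ≤ 1 / ((b ^ k : ℕ) : ℝ) ^ t ∧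
      (q : ℝ) ≤ M * |(q : ℝ) * (α * (b : ℝ) ^ (n + r)) - a|) (S : Finset ℕ)
    (hS : ∀ m ∈ S, m < M ∧ ∃ r < k, ∃ a < b ^ k, ε * t <
      |(cnt (b ^ k) a t ⌊Int.fract ((x + m * α) * (b : ℝ) ^ (n + r)) * ((b ^ k : ℕ) : ℝ) ^ t⌋₊ : ℝ)
        - t / ((b ^ k : ℕ) : ℝ)|) :
    (S.card : ℝ) ≤ 16 * k * ((b ^ k : ℕ) : ℝ) * M * Real.exp (-(ε ^ 2 / 4) * t) := by
  classical
  set B := b ^ k with hB
  have hB2 : 2 ≤ B := by
    calc 2 ≤ b := hb
      _ = b ^ 1 := (pow_one b).symm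
      _ ≤ b ^ k := Nat.pow_le_pow_right (by omega) hk
  have hBR : (0 : ℝ) < B := by positivity
  have hBt : (0 : ℝ) < (B : ℝ) ^ t := by positivity
  let Bad : ℕ → Finset ℕ := fun a => (range (B ^ t)).filter
    (fun z => ε * t < |(cnt B a t z : ℝ) - t / B|)
  let T : ℕ → ℕ → Finset ℕ := fun r z => (range M).filter
    (fun m : ℕ => ⌊Int.fract ((x + m * α) * (b : ℝ) ^ (n + r)) * (B : ℝ) ^ t⌋₊ = z)
  have hT : ∀ r < k, ∀ z, ((T r z).card : ℝ) ≤ 8 * M * (1 / (B : ℝ) ^ t) := by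
    intro r hr z
    obtain ⟨a, ha0, ha1, ha2⟩ := h r hr
    have h1 := multiples_arc (α * (b : ℝ) ^ (n + r)) (x * (b : ℝ) ^ (n + r) - z / (B : ℝ) ^ t)
      (1 / (B : ℝ) ^ t) q M a hq ha0 ha1 (by
        rw [div_le_one hBt]
        exact one_le_pow₀ (by exact_mod_cast (by omega : 1 ≤ B))) ha2
    refine le_trans ?_ h1
    have h2 : T r z ⊆ (range M).filter (fun m : ℕ =>
        Int.fract ((m : ℝ) * (α * (b : ℝ) ^ (n + r)) + (x * (b : ℝ) ^ (n + r) - z / (B : ℝ) ^ t))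
          < 1 / (B : ℝ) ^ t) := by
      intro m hm
      rw [Finset.mem_filter] at hm ⊢
      refine ⟨hm.1, ?_⟩
      set Y := (x + m * α) * (b : ℝ) ^ (n + r) with hY
      have e1 : (m : ℝ) * (α * (b : ℝ) ^ (n + r)) + (x * (b : ℝ) ^ (n + r) - z / (B : ℝ) ^ t)
          = ⌊Y⌋ + (Int.fract Y - z / (B : ℝ) ^ t) := by
        have := Int.floor_add_fract Y
        have e0 : (⌊Y⌋ : ℝ) + (Int.fract Y - z / (B : ℝ) ^ t) = Y - z / (B : ℝ) ^ t := by linarith
        rw [e0, hY]; ring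
      have e2 := Nat.floor_le (a := Int.fract Y * (B : ℝ) ^ t)
        (by have := Int.fract_nonneg Y; positivity)
      have e3 := Nat.lt_floor_add_one (Int.fract Y * (B : ℝ) ^ t)
      rw [hm.2] at e2 e3
      have e4 : 0 ≤ Int.fract Y - z / (B : ℝ) ^ t := by
        rw [sub_nonneg, div_le_iff₀ hBt]; exact e2
      have e5 : Int.fract Y - z / (B : ℝ) ^ t < 1 / (B : ℝ) ^ t := by
        rw [sub_lt_iff_lt_add, ← add_div, lt_div_iff₀ hBt]; linarith
      have e6 : 1 / (B : ℝ) ^ t ≤ 1 := by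
        rw [div_le_one hBt]
        exact one_le_pow₀ (by exact_mod_cast (by omega : 1 ≤ B))
      rw [e1, Int.fract_intCast_add, Int.fract_eq_self.2 ⟨e4, by linarith⟩]
      exact e5
    exact_mod_cast Finset.card_le_card h2
  have hsub : S ⊆ (range k).biUnion (fun r => (range B).biUnion (fun a => (Bad a).biUnion (T r))) := by
    intro m hm
    obtain ⟨hmM, r, hr, a, ha, hlt⟩ := hS m hm
    simp only [Finset.mem_biUnion]
    refine ⟨r, Finset.mem_range.2 hr, a, Finset.mem_range.2 ha,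
      ⌊Int.fract ((x + m * α) * (b : ℝ) ^ (n + r)) * (B : ℝ) ^ t⌋₊, ?_, ?_⟩
    · rw [Finset.mem_filter, Finset.mem_range]
      refine ⟨?_, hlt⟩
      rw [Nat.floor_lt (by have := Int.fract_nonneg ((x + m * α) * (b : ℝ) ^ (n + r)); positivity)]
      push_cast
      have := Int.fract_lt_one ((x + m * α) * (b : ℝ) ^ (n + r))
      nlinarith
    · rw [Finset.mem_filter, Finset.mem_range]
      exact ⟨hmM, rfl⟩
  have h1 : (S.card : ℝ) ≤ ∑ r ∈ range k, ∑ a ∈ range B, ∑ z ∈ Bad a, ((T r z).card : ℝ) := by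
    have h2 : S.card ≤ ∑ r ∈ range k, ∑ a ∈ range B, ∑ z ∈ Bad a, (T r z).card := by
      refine (Finset.card_le_card hsub).trans (Finset.card_biUnion_le.trans ?_)
      apply Finset.sum_le_sum; intro r _
      refine Finset.card_biUnion_le.trans ?_
      apply Finset.sum_le_sum; intro a _
      exact Finset.card_biUnion_le
    exact_mod_cast h2
  refine h1.trans ?_
  have h3 : ∀ r ∈ range k, ∀ a ∈ range B, ∑ z ∈ Bad a, ((T r z).card : ℝ)
      ≤ 16 * M * Real.exp (-(ε ^ 2 / 4) * t) := by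
    intro r hr a ha
    have h4 := bad_words B a hB2 (Finset.mem_range.1 ha) ε hε hε1 t
    calc ∑ z ∈ Bad a, ((T r z).card : ℝ) ≤ ∑ z ∈ Bad a, (8 * M * (1 / (B : ℝ) ^ t)) :=
          Finset.sum_le_sum (fun z _ => hT r (Finset.mem_range.1 hr) z)
      _ = ((Bad a).card : ℝ) * (8 * M * (1 / (B : ℝ) ^ t)) := by
          rw [Finset.sum_const, nsmul_eq_mul]
      _ ≤ (2 * Real.exp (-(ε ^ 2 / 4) * t) * (B : ℝ) ^ t) * (8 * M * (1 / (B : ℝ) ^ t)) :=
          mul_le_mul_of_nonneg_right h4 (by positivity)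
      _ = _ := by field_simp; ring
  calc ∑ r ∈ range k, ∑ a ∈ range B, ∑ z ∈ Bad a, ((T r z).card : ℝ)
      ≤ ∑ r ∈ range k, ∑ a ∈ range B, 16 * M * Real.exp (-(ε ^ 2 / 4) * t) :=
        Finset.sum_le_sum (fun r hr => Finset.sum_le_sum (fun a ha => h3 r hr a ha))
    _ = _ := by
        rw [Finset.sum_const, Finset.sum_const, card_range, card_range, nsmul_eq_mul, nsmul_eq_mul]
        ring

/-- the scale at which the multiples are well distributed -/
theorem good_scale (b : ℕ) (hb : 2 ≤ b) (α c0 : ℝ) (hc0 : 0 < c0)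
    (hα : ∀ q : ℕ, 1 ≤ q → ∀ p : ℤ, c0 ≤ (q : ℝ) ^ (5.05 : ℝ) * |q * α - p|) (N e : ℕ) :
    ∃ q i : ℕ, 1 ≤ q ∧ q ≤ b ^ e ∧ (i : ℝ) * Real.log b
        ≤ 5.05 * (N + e) * Real.log b - e * Real.log b - Real.log c0 ∧
      ∃ a : ℤ, |(q : ℝ) * (α * (b : ℝ) ^ (N + i)) - a| ≤ 1 / (b : ℝ) ^ e ∧
        1 / (b : ℝ) ^ (e + 1) < |(q : ℝ) * (α * (b : ℝ) ^ (N + i)) - a| := by
  have hbR : (1 : ℝ) < b := by exact_mod_cast (by omega : 1 < b)
  have hb0 : (0 : ℝ) < b := by linarith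
  have hbe : (0 : ℝ) < (b : ℝ) ^ e := by positivity
  obtain ⟨q, hq0, hqn, hq⟩ := Real.exists_nat_abs_mul_sub_round_le (α * (b : ℝ) ^ N)
    (n := b ^ e) (by positivity)
  set a0 : ℤ := round ((q : ℝ) * (α * (b : ℝ) ^ N)) with ha0
  set δ : ℝ := (q : ℝ) * (α * (b : ℝ) ^ N) - a0 with hδ
  have h1 := hα (q * b ^ N) (Nat.mul_pos hq0 (by positivity)) a0
  have h2 : ((q * b ^ N : ℕ) : ℝ) * α - a0 = δ := by rw [hδ]; push_cast; ring
  rw [h2] at h1
  have hδpos : 0 < |δ| := by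
    rcases eq_or_ne δ 0 with h | h
    · rw [h, abs_zero, mul_zero] at h1; linarith
    · exact abs_pos.2 h
  have hδle : |δ| ≤ 1 / (b : ℝ) ^ e := by
    refine hq.trans ?_
    push_cast
    apply one_div_le_one_div_of_le hbe
    linarith
  obtain ⟨i, hi1, hi2⟩ := exists_nat_pow_near (x := 1 / ((b : ℝ) ^ e * |δ|)) (y := (b : ℝ)) (by
    rw [le_div_iff₀ (by positivity), one_mul]
    rw [le_div_iff₀ hbe] at hδle
    linarith) hbR
  rw [le_div_iff₀ (by positivity)] at hi1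
  rw [div_lt_iff₀ (by positivity)] at hi2
  refine ⟨q, i, hq0, hqn, ?_, a0 * (b : ℤ) ^ i, ?_⟩
  · have h3 : ((q * b ^ N : ℕ) : ℝ) ≤ (b : ℝ) ^ (N + e) := by
      have : q * b ^ N ≤ b ^ (N + e) := by
        rw [pow_add, mul_comm]
        exact Nat.mul_le_mul_left _ hqn
      exact_mod_cast this
    have h4 : c0 ≤ ((b : ℝ) ^ (N + e)) ^ (5.05 : ℝ) * |δ| := by
      refine h1.trans (mul_le_mul_of_nonneg_right ?_ (abs_nonneg _))
      exact Real.rpow_le_rpow (by positivity) h3 (by norm_num)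
    have h5 := Real.log_le_log hc0 h4
    rw [Real.log_mul (by positivity) hδpos.ne', Real.log_rpow (by positivity), Real.log_pow] at h5
    have h6 : Real.log ((b : ℝ) ^ i * ((b : ℝ) ^ e * |δ|)) ≤ 0 :=
      Real.log_nonpos (by positivity) hi1
    rw [Real.log_mul (by positivity) (by positivity), Real.log_mul (by positivity) hδpos.ne',
      Real.log_pow, Real.log_pow] at h6
    push_cast at h5
    linarith
  · have h3 : (q : ℝ) * (α * (b : ℝ) ^ (N + i)) - ((a0 * (b : ℤ) ^ i : ℤ) : ℝ)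
        = (b : ℝ) ^ i * δ := by
      rw [hδ, pow_add]; push_cast; ring
    rw [h3, abs_mul, abs_of_pos (by positivity : (0 : ℝ) < (b : ℝ) ^ i)]
    constructor
    · rw [le_div_iff₀ hbe]; linarith
    · rw [div_lt_iff₀ (by positivity)]
      rw [pow_succ] at hi2 ⊢
      linarith

/-- the theorem for one value of `M` -/
theorem main_M (b k : ℕ) (hb : 2 ≤ b) (hk : 1 ≤ k) (α c0 : ℝ) (hc0 : 0 < c0)
    (hα : ∀ q : ℕ, 1 ≤ q → ∀ p : ℤ, c0 ≤ (q : ℝ) ^ (5.05 : ℝ) * |q * α - p|)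
    (ε : ℝ) (hε : 0 < ε) (hε1 : ε ≤ 1) (M : ℕ) (hM : M ≠ 0)
    (hL1 : 12 * (k + 1) ≤ Nat.log b M)
    (hL2 : (k : ℝ) ≤ ε * (Nat.log b M / 4 : ℕ))
    (hL3 : - Real.log c0 ≤ 0.65 * Nat.log b M * Real.log b) (N : ℕ) :
    ∃ n : ℕ, N ≤ n ∧ (n : ℝ) ≤ 6.05 * N + 2 * Nat.log b M ∧ ∀ x : ℝ, ∀ S : Finset ℕ,
      (∀ m ∈ S, m < M ∧ ∃ w : ℕ → ℕ, (∀ s, w s < b) ∧ 2 * ε * (Nat.log b M / 4 : ℕ) <
        |(((range (Nat.log b M / 4)).filter (fun j =>
          ∀ s < k, ⌊(x + m * α) * (b : ℝ) ^ (n + j + s + 1)⌋ % (b : ℤ) = w s)).card : ℝ)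
            - (Nat.log b M / 4 : ℕ) / (b : ℝ) ^ k|) →
      (S.card : ℝ) ≤ 16 * k * ((b ^ k : ℕ) : ℝ) * M
        * Real.exp (-(ε ^ 2 / 4) * (Nat.log b M / 4 / k : ℕ)) := by
  have hbR : (1 : ℝ) < b := by exact_mod_cast (by omega : 1 < b)
  have hb0 : (0 : ℝ) < b := by linarith
  have hlogb : 0 < Real.log b := Real.log_pos hbR
  set L := Nat.log b M with hL
  set l := L / 4 with hl
  set t := l / k with ht
  set e := L / 3 with he
  have hkt : k * t ≤ l := Nat.mul_div_le l k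
  have hML : b ^ L ≤ M := Nat.pow_log_le_self b hM
  obtain ⟨q, i, hq1, hqe, hi, a, ha1, ha2⟩ := good_scale b hb α c0 hc0 hα N e
  refine ⟨N + i, by omega, ?_, ?_⟩
  · have h1 : (3 : ℝ) * e ≤ L := by exact_mod_cast (by omega : 3 * e ≤ L)
    have h2 : (i : ℝ) * Real.log b ≤ (5.05 * N + 2 * L) * Real.log b := by
      refine hi.trans ?_
      have h3 : (4.05 : ℝ) * e * Real.log b ≤ 1.35 * L * Real.log b :=
        mul_le_mul_of_nonneg_right (by linarith) hlogb.le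
      nlinarith
    have h3 := le_of_mul_le_mul_right h2 hlogb
    push_cast
    linarith
  · intro x S hS
    apply bad_multiples b k hb hk ε hε hε1 α x (N + i) t q M hq1
    · intro r hr
      refine ⟨a * (b : ℤ) ^ r, ?_⟩
      have h1 : (q : ℝ) * (α * (b : ℝ) ^ (N + i + r)) - ((a * (b : ℤ) ^ r : ℤ) : ℝ)
          = (b : ℝ) ^ r * ((q : ℝ) * (α * (b : ℝ) ^ (N + i)) - a) := by
        rw [pow_add]; push_cast; ring
      have hpos : 0 < |(q : ℝ) * (α * (b : ℝ) ^ (N + i)) - a| :=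
        lt_trans (by positivity) ha2
      have hbr : (1 : ℝ) ≤ (b : ℝ) ^ r := one_le_pow₀ hbR.le
      rw [h1, abs_mul, abs_of_pos (by positivity : (0 : ℝ) < (b : ℝ) ^ r)]
      refine ⟨mul_ne_zero (by positivity) (abs_pos.1 hpos), ?_, ?_⟩
      · calc (b : ℝ) ^ r * |(q : ℝ) * (α * (b : ℝ) ^ (N + i)) - a|
            ≤ (b : ℝ) ^ k * (1 / (b : ℝ) ^ e) :=
              mul_le_mul (pow_le_pow_right₀ hbR.le hr.le) ha1 (abs_nonneg _) (by positivity)
          _ ≤ 1 / ((b ^ k : ℕ) : ℝ) ^ t := by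
              push_cast
              rw [← pow_mul, mul_one_div, div_le_div_iff₀ (by positivity) (by positivity), ← pow_add,
                one_mul]
              exact pow_le_pow_right₀ hbR.le (by omega)
      · have h2 : (q : ℝ) ≤ M * (1 / (b : ℝ) ^ (e + 1)) := by
          rw [mul_one_div, le_div_iff₀ (by positivity)]
          have : q * b ^ (e + 1) ≤ M := by
            calc q * b ^ (e + 1) ≤ b ^ e * b ^ (e + 1) := Nat.mul_le_mul_right _ hqe
              _ = b ^ (e + (e + 1)) := (pow_add b e (e + 1)).symm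
              _ ≤ b ^ L := Nat.pow_le_pow_right (by omega) (by omega)
              _ ≤ M := hML
          exact_mod_cast this
        have hMR : (0 : ℝ) ≤ M := by positivity
        refine h2.trans (mul_le_mul_of_nonneg_left ?_ hMR)
        nlinarith
    · intro m hm
      obtain ⟨hmM, w, hw, hlt⟩ := hS m hm
      refine ⟨hmM, ?_⟩
      by_contra hcon
      push Not at hcon
      have h1 := count_close b k hb hk w hw (x + m * α) (N + i) l ε hε.le
        (fun r hr => hcon r hr (val b w k) (val_lt b w hw k))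
      have : ε * l + k ≤ 2 * ε * l := by linarith
      linarith

end Pool.Agent.W226.MP
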