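import Pool.Agent.W226.MP.Freq

/-!
# Good places of an irrational number

`GoodPlace b α L n` says that the words formed by the `L` digits after the place `n` of the numbers
`x + m α` are as well distributed as possible, for all real `x`.
-/

set_option autoImplicit false

namespace Pool.Agent.W226.MP

open Finset

/-- the `i`-th digit after the point of `y` in base `b` -/
noncomputable def digit (b : ℕ) (y : ℝ) (i : ℕ) : ℤ := ⌊y * (b : ℝ) ^ i⌋ % (b : ℤ)

/-- the digits of `y` at the places `p + 1, …, p + k` are `w 0, …, w (k - 1)` -/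
def OccursAt (b k : ℕ) (w : Fin k → Fin b) (y : ℝ) (p : ℕ) : Prop :=
  ∀ s : Fin k, digit b y (p + s + 1) = ((w s : ℕ) : ℤ)

open Classical in
/-- the number of occurrences of the block `w` in `y` starting right after one of the `l` places
`n, …, n + l - 1` -/
noncomputable def occ (b k : ℕ) (w : Fin k → Fin b) (y : ℝ) (n l : ℕ) : ℕ :=
  ((range l).filter (fun j => OccursAt b k w y (n + j))).card

open Classical in
/-- `n` is a good place for the words of length `L` of the multiples of `α`: for every real `x`,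
(1) every word of `L` digits stands right after the place `n` in `x + m α` for at most `2 b` of the
`m < b ^ L`, and (2) for at least one `m < 4 b ^ (L + 1)`; (3) for all `1 ≤ k ≤ L` and `0 < ε ≤ 1`, for
all but at most `4 k b ^ (k + 1) exp (- ε² ⌊(L + 1 - k) / k⌋ / 4) b ^ L` of the `m < b ^ L`, every block
`w` of `k` digits occurs in the `L` digits of `x + m α` after the place `n` the expected number
`(L + 1 - k) / b ^ k` of times up to an error of `ε (L + 1 - k) + k`. -/
def GoodPlace (b : ℕ) (α : ℝ) (L n : ℕ) : Prop := ∀ x : ℝ,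
  (∀ v : Fin L → Fin b,
    ((range (b ^ L)).filter (fun m : ℕ => OccursAt b L v (x + m * α) n)).card ≤ 2 * b) ∧
  (∀ v : Fin L → Fin b, ∃ m < 4 * b ^ (L + 1), OccursAt b L v (x + m * α) n) ∧
  (∀ k : ℕ, 1 ≤ k → k ≤ L → ∀ ε : ℝ, 0 < ε → ε ≤ 1 →
    (((range (b ^ L)).filter (fun m : ℕ => ∃ w : Fin k → Fin b,
      ε * (L + 1 - k : ℕ) + k <
        |(occ b k w (x + m * α) n (L + 1 - k) : ℝ) - (L + 1 - k : ℕ) / (b : ℝ) ^ k|)).card : ℝ)
      ≤ 4 * k * (b : ℝ) ^ (k + 1) * Real.exp (-(ε ^ 2 / 4) * ((L + 1 - k) / k : ℕ)) * (b : ℝ) ^ L)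

/-- a block on `Fin k` extended to all places -/
def ext (b k : ℕ) (w : Fin k → Fin b) (s : ℕ) : ℕ := if h : s < k then (w ⟨s, h⟩ : ℕ) else 0

theorem ext_lt (b k : ℕ) (hb : 2 ≤ b) (w : Fin k → Fin b) (s : ℕ) : ext b k w s < b := by
  unfold ext
  split_ifs with h
  · exact (w ⟨s, h⟩).2
  · omega

theorem occursAt_iff (b k : ℕ) (w : Fin k → Fin b) (y : ℝ) (p : ℕ) :
    OccursAt b k w y p ↔ ∀ s < k, ⌊y * (b : ℝ) ^ (p + s + 1)⌋ % (b : ℤ) = ext b k w s := by
  unfold OccursAt digit
  constructor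
  · intro h s hs
    have := h ⟨s, hs⟩
    rw [ext, dif_pos hs]
    exact this
  · intro h s
    have := h s s.2
    rw [ext, dif_pos s.2] at this
    exact this

theorem goodPlace (b L : ℕ) (hb : 2 ≤ b) (α : ℝ) (n : ℕ) (r : ℚ)
    (h : Good b (b ^ L) (α * (b : ℝ) ^ n) r) : GoodPlace b α L n := by
  classical
  intro x
  refine ⟨fun v => ?_, fun v => ?_, fun k hk hkL ε hε hε1 => ?_⟩
  · have h1 := (words b L hb α n r h x (ext b L v) (ext_lt b L hb v)).1
    refine le_trans (le_of_eq ?_) h1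
    congr 1
    apply Finset.filter_congr
    intro m _
    exact occursAt_iff b L v (x + m * α) n
  · obtain ⟨m, hm, h1⟩ := (words b L hb α n r h x (ext b L v) (ext_lt b L hb v)).2
    exact ⟨m, hm, (occursAt_iff b L v (x + m * α) n).2 h1⟩
  · apply freq b k L hb hk hkL α n r h x ε hε hε1
    intro m hm
    rw [Finset.mem_filter, Finset.mem_range] at hm
    obtain ⟨hmM, w, hw⟩ := hm
    refine ⟨hmM, ext b k w, ext_lt b k hb w, ?_⟩
    have e : ((range (L + 1 - k)).filter (fun j =>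
        ∀ s < k, ⌊(x + m * α) * (b : ℝ) ^ (n + j + s + 1)⌋ % (b : ℤ) = ext b k w s)).card
        = occ b k w (x + m * α) n (L + 1 - k) := by
      unfold occ
      congr 1
      apply Finset.filter_congr
      intro j _
      exact (occursAt_iff b k w (x + m * α) (n + j)).symm
    rw [e]
    exact hw

/-- good places exist after every place `N`; the distance is bounded by small values of
`|q b ^ N α - a|` -/
theorem place (b L : ℕ) (hb : 2 ≤ b) (α : ℝ) (hα : Irrational α) (N : ℕ) :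
    ∃ i : ℕ, (∃ q : ℕ, 1 ≤ q ∧ q < 2 * b ^ L ∧ ∃ a : ℤ,
      (b : ℝ) ^ i * |((q * b ^ N : ℕ) : ℝ) * α - a| ≤ 1) ∧ GoodPlace b α L (N + i) := by
  obtain ⟨i, ⟨q, hq1, hq2, a, ha⟩, r, hr⟩ :=
    scale b (b ^ L) hb (Nat.one_le_pow _ _ (by omega)) α hα N
  refine ⟨i, ⟨q, hq1, hq2, a, ?_⟩, goodPlace b L hb α (N + i) r hr⟩
  have e : ((q * b ^ N : ℕ) : ℝ) * α - a = (q : ℝ) * (α * (b : ℝ) ^ N) - a := by push_cast; ring
  rw [e]
  exact ha

/-- places for numbers with a given irrationality measure -/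
theorem place_of_measure (α κ c0 : ℝ) (hα : Irrational α) (hκ : 0 < κ) (hc0 : 0 < c0)
    (h : ∀ q : ℕ, 1 ≤ q → ∀ p : ℤ, c0 ≤ (q : ℝ) ^ κ * |q * α - p|) :
    ∃ C : ℝ, ∀ b : ℕ, 2 ≤ b → ∀ L N : ℕ, ∃ n : ℕ, N ≤ n ∧
      (n : ℝ) ≤ (1 + κ) * N + κ * L + C ∧ GoodPlace b α L n := by
  refine ⟨(κ * Real.log 2 + |Real.log c0|) / Real.log 2, fun b hb L N => ?_⟩
  obtain ⟨i, ⟨q, hq1, hq2, a, ha⟩, hg⟩ := place b L hb α hα N
  refine ⟨N + i, by omega, ?_, hg⟩
  have hb2 : (2 : ℝ) ≤ b := by exact_mod_cast hb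
  have hb0 : (0 : ℝ) < b := by linarith
  have hl2 : 0 < Real.log 2 := Real.log_pos (by norm_num)
  have hlb : Real.log 2 ≤ Real.log b := Real.log_le_log (by norm_num) hb2
  have hlb0 : 0 < Real.log b := lt_of_lt_of_le hl2 hlb
  have hqN : 1 ≤ q * b ^ N := Nat.mul_pos hq1 (by positivity)
  have h1 := h (q * b ^ N) hqN a
  set X : ℝ := ((q * b ^ N : ℕ) : ℝ) with hX
  have hX1 : (1 : ℝ) ≤ X := by rw [hX]; exact_mod_cast hqN
  have hXle : X ≤ 2 * (b : ℝ) ^ (L + N) := by
    have h2 : q * b ^ N ≤ 2 * b ^ (L + N) := by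
      rw [pow_add, ← mul_assoc]
      exact Nat.mul_le_mul_right _ hq2.le
    rw [hX]; exact_mod_cast h2
  have h2 : (b : ℝ) ^ i * c0 ≤ X ^ κ := by
    calc (b : ℝ) ^ i * c0 ≤ (b : ℝ) ^ i * (X ^ κ * |X * α - a|) :=
          mul_le_mul_of_nonneg_left h1 (by positivity)
      _ = X ^ κ * ((b : ℝ) ^ i * |X * α - a|) := by ring
      _ ≤ X ^ κ * 1 := mul_le_mul_of_nonneg_left ha (by positivity)
      _ = _ := mul_one _
  have h3 : (i : ℝ) * Real.log b + Real.log c0 ≤ κ * (Real.log 2 + (L + N) * Real.log b) := by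
    have h4 := Real.log_le_log (by positivity) h2
    rw [Real.log_mul (by positivity) hc0.ne', Real.log_pow, Real.log_rpow (by linarith)] at h4
    refine h4.trans (mul_le_mul_of_nonneg_left ?_ hκ.le)
    have h5 := Real.log_le_log (by linarith) hXle
    rw [Real.log_mul (by norm_num) (by positivity), Real.log_pow] at h5
    push_cast at h5
    exact h5
  have h4 : (i : ℝ) * Real.log b ≤ (κ * (L + N) + (κ * Real.log 2 + |Real.log c0|) / Real.log 2)
      * Real.log b := by
    have h5 : κ * Real.log 2 + |Real.log c0|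
        ≤ (κ * Real.log 2 + |Real.log c0|) / Real.log 2 * Real.log b := by
      rw [div_mul_eq_mul_div, le_div_iff₀ hl2]
      exact mul_le_mul_of_nonneg_left hlb (by positivity)
    have h6 := neg_abs_le (Real.log c0)
    nlinarith
  have h5 := le_of_mul_le_mul_right h4 hlb0
  push_cast
  linarith


open Classical in
/-- the number of multiples in which almost all words of length `L` belong to a given set `W` -/
theorem finite_words (b L : ℕ) (hb : 2 ≤ b) (α : ℝ) (hα : Irrational α)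
    (W : Finset (Fin L → Fin b)) (x : ℝ) :
    ((range (b ^ L)).filter (fun m : ℕ =>
      {p : ℕ | ∀ v ∈ W, ¬ OccursAt b L v (x + m * α) p}.Finite)).card ≤ 2 * b * W.card := by
  have hb0 : 0 < b := by omega
  set S := (range (b ^ L)).filter (fun m : ℕ =>
      {p : ℕ | ∀ v ∈ W, ¬ OccursAt b L v (x + m * α) p}.Finite) with hS
  have h2 : ∀ m ∈ S, ∃ N : ℕ, ∀ p : ℕ, N ≤ p → ∃ v ∈ W, OccursAt b L v (x + m * α) p := by
    intro m hm
    rw [hS, Finset.mem_filter] at hm
    obtain ⟨N, hN⟩ := hm.2.bddAbove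
    refine ⟨N + 1, fun p hp => ?_⟩
    by_contra hcon
    push Not at hcon
    have := hN (show p ∈ {p : ℕ | ∀ v ∈ W, ¬ OccursAt b L v (x + m * α) p} from hcon)
    omega
  choose! f hf using h2
  obtain ⟨i, _, r, hr⟩ := scale b (b ^ L) hb (Nat.one_le_pow _ _ hb0) α hα (S.sup f)
  apply words_prop b L hb α (S.sup f + i) r hr x S
  intro m hm
  have hm' := hm
  rw [hS, Finset.mem_filter, Finset.mem_range] at hm'
  refine ⟨hm'.1, ?_⟩
  obtain ⟨v, hv, hocc⟩ := hf m hm (S.sup f + i) (by have := Finset.le_sup (f := f) hm; omega)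
  have e : wd b hb0 L (S.sup f + i) (x + m * α) = v := by
    funext s
    have h3 := wd_spec b hb0 L (S.sup f + i) (x + m * α) s
    have h4 := hocc s
    unfold digit at h4
    rw [h3] at h4
    exact Fin.ext (by exact_mod_cast h4)
  rw [e]
  exact hv

open Classical in
/-- the number of multiples in which a block occurs only finitely often -/
theorem finite_occ (b k L : ℕ) (hb : 2 ≤ b) (α : ℝ) (hα : Irrational α) (w : Fin k → Fin b)
    (x : ℝ) :
    ((range (b ^ L)).filter (fun m : ℕ => {p : ℕ | OccursAt b k w (x + m * α) p}.Finite)).card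
      ≤ 2 * b * (univ.filter (fun v : Fin L → Fin b => Avoids b k L w v)).card := by
  apply avoid b k L hb α hα w x
  intro m hm
  rw [Finset.mem_filter, Finset.mem_range] at hm
  exact hm

end Pool.Agent.W226.MP
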