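import Pool.Agent.W226.MP.Digits

set_option autoImplicit false

namespace Pool.Agent.W226.MP

open Finset

/-- `r` is a rational approximation to `θ` of the exact quality needed at the scale `M` -/
structure Good (b M : ℕ) (θ : ℝ) (r : ℚ) : Prop where
  den : r.den < 2 * M
  le : (r.den : ℝ) * |θ - r| ≤ 1 / (2 * M)
  ge : 1 / (2 * b * M) < (r.den : ℝ) * |θ - r|

/-- the points `m θ`, `m < M`, are separated modulo one -/
theorem sep_points (b M : ℕ) (hb : 2 ≤ b) (hM : 1 ≤ M) (θ : ℝ) (r : ℚ) (h : Good b M θ r)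
    (j : ℕ) (hj1 : 1 ≤ j) (hj2 : j < M) (p : ℤ) : 1 / (2 * b * M) < |(j : ℝ) * θ - p| := by
  have hMR : (0 : ℝ) < M := by exact_mod_cast hM
  have hbR : (2 : ℝ) ≤ b := by exact_mod_cast hb
  have hq : (0 : ℝ) < r.den := by exact_mod_cast r.den_pos
  have hjR : (0 : ℝ) < j := by exact_mod_cast hj1
  have hjM : (j : ℝ) < M := by exact_mod_cast hj2
  set ρ := |θ - r| with hρ
  have hρ0 : 0 ≤ ρ := abs_nonneg _
  have hrr : (r : ℝ) * r.den = r.num := by
    have := Rat.mul_den_eq_num r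
    exact_mod_cast this
  have h1 : (r.den : ℝ) * ((j : ℝ) * ρ) < 1 / 2 := by
    have h2 : (j : ℝ) * ((r.den : ℝ) * ρ) ≤ j * (1 / (2 * M)) := mul_le_mul_of_nonneg_left h.le hjR.le
    have h3 : (j : ℝ) * (1 / (2 * M)) < 1 / 2 := by
      rw [mul_one_div, div_lt_div_iff₀ (by positivity) (by norm_num)]; linarith
    calc (r.den : ℝ) * ((j : ℝ) * ρ) = j * ((r.den : ℝ) * ρ) := by ring
      _ < _ := lt_of_le_of_lt h2 h3
  have h4 : |(j : ℝ) * r - p| - j * ρ ≤ |(j : ℝ) * θ - p| := by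
    have h5 : (j : ℝ) * r - p = ((j : ℝ) * θ - p) - j * (θ - r) := by ring
    have h6 : |(j : ℝ) * r - p| ≤ |(j : ℝ) * θ - p| + |(j : ℝ) * (θ - r)| := by
      rw [h5]; exact abs_sub _ _
    rw [abs_mul, abs_of_pos hjR] at h6
    linarith
  by_cases hcase : (j : ℤ) * r.num = p * r.den
  · -- `j r = p`
    have hdvd : (r.den : ℤ) ∣ j := by
      have h5 : (r.den : ℤ) ∣ (j : ℤ) * r.num := ⟨p, by rw [hcase]; ring⟩
      have h6 : IsCoprime (r.den : ℤ) r.num := by
        rw [Int.isCoprime_iff_gcd_eq_one, Int.gcd_comm]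
        exact r.reduced
      exact h6.dvd_of_dvd_mul_right h5
    have hle : r.den ≤ j := Nat.le_of_dvd hj1 (by exact_mod_cast hdvd)
    have hleR : (r.den : ℝ) ≤ j := by exact_mod_cast hle
    have e1 : (j : ℝ) * r = p := by
      have h5 : ((j : ℤ) * r.num : ℝ) = (p * r.den : ℝ) := by exact_mod_cast hcase
      have h6 : ((j : ℝ) * r - p) * r.den = 0 := by
        rw [sub_mul, mul_assoc, hrr]
        push_cast at h5
        linarith
      rcases mul_eq_zero.1 h6 with h7 | h7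
      · linarith
      · exact absurd h7 hq.ne'
    have e2 : (j : ℝ) * θ - p = j * (θ - r) := by rw [← e1]; ring
    rw [e2, abs_mul, abs_of_pos hjR]
    exact lt_of_lt_of_le h.ge (mul_le_mul_of_nonneg_right hleR hρ0)
  · have h5 : (1 : ℝ) ≤ |(j : ℝ) * r - p| * r.den := by
      have h6 : ((j : ℝ) * r - p) * r.den = (((j : ℤ) * r.num - p * r.den : ℤ) : ℝ) := by
        rw [sub_mul, mul_assoc, hrr]; push_cast; ring
      rw [← abs_of_pos hq, ← abs_mul, h6, ← Int.cast_abs]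
      exact_mod_cast Int.one_le_abs (sub_ne_zero.2 hcase)
    have h6 : 1 / 2 < |(j : ℝ) * θ - p| * r.den := by nlinarith
    have h7 : (r.den : ℝ) < 2 * M := by exact_mod_cast h.den
    have h8 : 1 / (4 * (M : ℝ)) < |(j : ℝ) * θ - p| := by
      rw [div_lt_iff₀ (by positivity)]
      nlinarith [abs_nonneg ((j : ℝ) * θ - p)]
    refine lt_of_le_of_lt ?_ h8
    apply one_div_le_one_div_of_le (by positivity)
    nlinarith

/-- every cell of length `1 / M` contains at most `2 b` of the points `x + m θ`, `m < M` -/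
theorem cell_le (b M : ℕ) (hb : 2 ≤ b) (hM : 1 ≤ M) (θ : ℝ) (r : ℚ) (h : Good b M θ r)
    (x : ℝ) (z : ℕ) :
    ((range M).filter (fun m : ℕ => ⌊Int.fract (x + m * θ) * M⌋₊ = z)).card ≤ 2 * b := by
  have hMR : (0 : ℝ) < M := by exact_mod_cast hM
  have hbR : (2 : ℝ) ≤ b := by exact_mod_cast hb
  have hK : (0 : ℝ) < 2 * b * M := by positivity
  have hcard : (Finset.Ico (2 * b * z) (2 * b * z + 2 * b)).card = 2 * b := by
    rw [Nat.card_Ico]; omega
  rw [← hcard]
  apply Finset.card_le_card_of_injOn (fun m : ℕ => ⌊Int.fract (x + m * θ) * (2 * b * M)⌋₊)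
  · intro m hm
    rw [Finset.coe_filter, Set.mem_ofPred_eq] at hm
    have h1 := hm.2
    have h0 := Int.fract_nonneg (x + m * θ)
    have h2 := Nat.floor_le (a := Int.fract (x + m * θ) * M) (by positivity)
    have h3 := Nat.lt_floor_add_one (Int.fract (x + m * θ) * M)
    rw [h1] at h2 h3
    simp only [Finset.coe_Ico, Set.mem_Ico]
    constructor
    · apply Nat.le_floor
      push_cast
      nlinarith
    · rw [Nat.floor_lt (by positivity)]
      push_cast
      nlinarith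
  · intro m hm m' hm' heq
    rw [Finset.coe_filter, Set.mem_ofPred_eq, Finset.mem_range] at hm hm'
    by_contra hne
    have key : ∀ m m' : ℕ, m < M → m' < m →
        ⌊Int.fract (x + m * θ) * (2 * b * M)⌋₊ = ⌊Int.fract (x + m' * θ) * (2 * b * M)⌋₊ → False := by
      intro m m' hm hlt heq
      have h0 := Int.fract_nonneg (x + m * θ)
      have h0' := Int.fract_nonneg (x + m' * θ)
      have h1 := Nat.floor_le (a := Int.fract (x + m * θ) * (2 * b * M)) (by positivity)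
      have h2 := Nat.lt_floor_add_one (Int.fract (x + m * θ) * (2 * b * M))
      have h3 := Nat.floor_le (a := Int.fract (x + m' * θ) * (2 * b * M)) (by positivity)
      have h4 := Nat.lt_floor_add_one (Int.fract (x + m' * θ) * (2 * b * M))
      rw [heq] at h1 h2
      have h5 : |Int.fract (x + m * θ) - Int.fract (x + m' * θ)| * (2 * b * M) < 1 := by
        rw [← abs_of_pos hK, ← abs_mul, sub_mul, abs_lt]
        constructor <;> linarith
      have h6 := sep_points b M hb hM θ r h (m - m') (by omega) (by omega)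
        (⌊x + m * θ⌋ - ⌊x + m' * θ⌋)
      have e1 : ((m - m' : ℕ) : ℝ) * θ - ((⌊x + m * θ⌋ - ⌊x + m' * θ⌋ : ℤ) : ℝ)
          = Int.fract (x + m * θ) - Int.fract (x + m' * θ) := by
        rw [Nat.cast_sub hlt.le, Int.fract, Int.fract]
        push_cast
        ring
      rw [e1, div_lt_iff₀ hK] at h6
      linarith
    rcases lt_or_gt_of_ne hne with h1 | h1
    · exact key m' m hm'.1 h1 heq.symm
    · exact key m m' hm.1 h1 heq

theorem step_exists (ρ g : ℝ) (hρ : 0 < ρ) (hg : 0 ≤ g) (q u : ℕ) (hq : 1 ≤ q) (hu : u < q) :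
    ∃ t : ℕ, g ≤ ((u + q * t : ℕ) : ℝ) * ρ ∧ ((u + q * t : ℕ) : ℝ) * ρ < g + q * ρ := by
  classical
  have hqR : (1 : ℝ) ≤ q := by exact_mod_cast hq
  have huR : (u : ℝ) < q := by exact_mod_cast hu
  have hex : ∃ t : ℕ, g ≤ ((u + q * t : ℕ) : ℝ) * ρ := by
    obtain ⟨t, ht⟩ := exists_nat_gt (g / ρ)
    rw [div_lt_iff₀ hρ] at ht
    refine ⟨t, ht.le.trans (mul_le_mul_of_nonneg_right ?_ hρ.le)⟩
    push_cast
    have : (0 : ℝ) ≤ t := by positivity
    nlinarith [(by positivity : (0 : ℝ) ≤ u)]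
  refine ⟨Nat.find hex, Nat.find_spec hex, ?_⟩
  rcases Nat.eq_zero_or_pos (Nat.find hex) with h0 | h0
  · rw [h0]
    push_cast
    nlinarith
  · have h1 := Nat.find_min hex (Nat.sub_lt h0 one_pos)
    push Not at h1
    have h2 : ((u + q * Nat.find hex : ℕ) : ℝ) = ((u + q * (Nat.find hex - 1) : ℕ) : ℝ) + q := by
      have : u + q * Nat.find hex = u + q * (Nat.find hex - 1) + q := by
        obtain ⟨k, hk⟩ := Nat.exists_eq_succ_of_ne_zero (by omega : Nat.find hex ≠ 0)
        rw [hk]; simp only [Nat.succ_sub_one, Nat.succ_eq_add_one]; ring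
      rw [this]; push_cast; ring
    rw [h2, add_mul]
    linarith

/-- residues -/
theorem exists_residue (a c : ℤ) (q : ℕ) (hq : 1 ≤ q) (h : IsCoprime a (q : ℤ)) :
    ∃ u : ℕ, u < q ∧ ∃ k : ℤ, (u : ℤ) * a = c + k * q := by
  obtain ⟨s, t, hst⟩ := h
  have hq0 : (q : ℤ) ≠ 0 := by omega
  have h1 := Int.emod_nonneg (c * s) hq0
  have h2 := Int.emod_lt_of_pos (c * s) (by omega : (0 : ℤ) < q)
  refine ⟨(c * s % q).toNat, by omega, ?_⟩
  have h3 : (((c * s % q).toNat : ℕ) : ℤ) = c * s % q := Int.toNat_of_nonneg h1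
  have h4 := Int.emod_add_mul_ediv (c * s) q
  refine ⟨-(c * t) - (c * s / q) * a, ?_⟩
  rw [h3]
  have h5 : c * s % q = c * s - q * (c * s / q) := by linarith
  rw [h5]
  linear_combination c * hst

/-- every cell of length `1 / M` contains one of the points `x + m θ`, `m < 4 b M` -/
theorem cell_ge (b M : ℕ) (hb : 2 ≤ b) (hM : 1 ≤ M) (θ : ℝ) (r : ℚ) (h : Good b M θ r)
    (x : ℝ) (z : ℕ) (hz : z < M) :
    ∃ m < 4 * b * M, ⌊Int.fract (x + m * θ) * M⌋₊ = z := by
  have hMR : (0 : ℝ) < M := by exact_mod_cast hM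
  have hbR : (2 : ℝ) ≤ b := by exact_mod_cast hb
  have hq1 : 1 ≤ r.den := r.den_pos
  have hq : (0 : ℝ) < r.den := by exact_mod_cast r.den_pos
  have hcop : IsCoprime r.num (r.den : ℤ) := by
    rw [Int.isCoprime_iff_gcd_eq_one]
    exact r.reduced
  have hrr : (r : ℝ) * r.den = r.num := by
    have := Rat.mul_den_eq_num r
    exact_mod_cast this
  have hrr' : (r : ℝ) = r.num / r.den := by rw [eq_div_iff hq.ne']; exact hrr
  set ρ := |θ - r| with hρ
  have hρ0 : 0 < ρ := by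
    rcases (abs_nonneg (θ - (r : ℝ))).eq_or_lt with h0 | h0
    · exfalso
      have h1 := h.ge
      rw [← h0, mul_zero] at h1
      have : (0 : ℝ) < 1 / (2 * b * M) := by positivity
      linarith
    · exact h0
  have hqM : (r.den : ℝ) < 2 * M := by exact_mod_cast h.den
  -- the bound for `m`
  have hbound : ∀ (m : ℕ) (g : ℝ), g < 1 / r.den → (m : ℝ) * ρ < g + r.den * ρ → m < 4 * b * M := by
    intro m g hg hm
    have h1 : (m : ℝ) * ((r.den : ℝ) * ρ) < 2 := by
      have h2 : (m : ℝ) * ρ * r.den < (1 / r.den + r.den * ρ) * r.den :=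
        mul_lt_mul_of_pos_right (by linarith) hq
      have h3 : (1 / (r.den : ℝ) + r.den * ρ) * r.den = 1 + r.den * (r.den * ρ) := by
        field_simp
      have h4 : (r.den : ℝ) * (r.den * ρ) ≤ 1 := by
        calc (r.den : ℝ) * (r.den * ρ) ≤ (2 * M) * (1 / (2 * M)) :=
              mul_le_mul hqM.le h.le (by positivity) (by positivity)
          _ = 1 := by field_simp
      rw [h3] at h2
      linarith
    have h5 : (m : ℝ) * (1 / (2 * b * M)) < 2 := by
      refine lt_of_le_of_lt (mul_le_mul_of_nonneg_left h.ge.le (by positivity)) h1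
    rw [mul_one_div, div_lt_iff₀ (by positivity)] at h5
    have h6 : (m : ℝ) < ((4 * b * M : ℕ) : ℝ) := by push_cast; linarith
    exact_mod_cast h6
  -- conclusion from a point in the right arc
  have hfin : ∀ (m : ℕ) (p : ℤ), (z : ℝ) / M - x ≤ (m : ℝ) * θ - p →
      (m : ℝ) * θ - p < z / M - x + 1 / M → ⌊Int.fract (x + m * θ) * M⌋₊ = z := by
    intro m p h1 h2
    have hzM : (z : ℝ) + 1 ≤ M := by exact_mod_cast hz
    have h3 : (z : ℝ) / M + 1 / M ≤ 1 := by
      rw [← add_div, div_le_one hMR]; exact hzM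
    have h4 : 0 ≤ (z : ℝ) / M := by positivity
    have h5 : Int.fract (x + m * θ) = x + m * θ - p := by
      have h6 : x + m * θ = (p : ℝ) + (x + m * θ - p) := by ring
      rw [h6, Int.fract_intCast_add, Int.fract_eq_self.2 ⟨by linarith, by linarith⟩]
      ring
    rw [h5, Nat.floor_eq_iff (mul_nonneg (by linarith) hMR.le)]
    constructor
    · have h6 : (z : ℝ) / M ≤ x + m * θ - p := by linarith
      rwa [div_le_iff₀ hMR] at h6
    · have h6 : x + m * θ - p < (z + 1) / M := by rw [add_div]; linarith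
      rwa [lt_div_iff₀ hMR] at h6
  set y : ℝ := z / M - x with hy
  have hδM : (r.den : ℝ) * ρ ≤ 1 / (2 * M) := h.le
  have hhalf : (1 : ℝ) / (2 * M) < 1 / M := one_div_lt_one_div_of_lt hMR (by linarith)
  rcases le_or_gt 0 (θ - r) with hs | hs
  · -- `θ = r + ρ`
    have hθ : θ = r + ρ := by rw [hρ, abs_of_nonneg hs]; ring
    set c : ℤ := ⌊(r.den : ℝ) * y⌋ with hc
    obtain ⟨u, hu, k, hk⟩ := exists_residue r.num c r.den hq1 hcop
    set g : ℝ := y - c / r.den with hg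
    have hg0 : 0 ≤ g := by
      rw [hg, sub_nonneg, div_le_iff₀ hq]
      have := Int.floor_le ((r.den : ℝ) * y)
      linarith
    have hg1 : g < 1 / r.den := by
      rw [hg, sub_lt_iff_lt_add, ← add_div, lt_div_iff₀ hq]
      have := Int.lt_floor_add_one ((r.den : ℝ) * y)
      linarith
    obtain ⟨t, ht1, ht2⟩ := step_exists ρ g hρ0 hg0 r.den u hq1 hu
    have hkR : (u : ℝ) * r.num = c + k * r.den := by exact_mod_cast hk
    have e1 : ((u + r.den * t : ℕ) : ℝ) * θ - ((k + t * r.num : ℤ) : ℝ)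
        = c / r.den + ((u + r.den * t : ℕ) : ℝ) * ρ := by
      rw [hθ, hrr']
      push_cast
      field_simp
      linear_combination hkR
    refine ⟨u + r.den * t, hbound _ g hg1 ht2, hfin _ (k + t * r.num) ?_ ?_⟩
    · rw [e1]; linarith
    · rw [e1]; linarith
  · have hθ : θ = r - ρ := by rw [hρ, abs_of_neg hs]; ring
    set c : ℤ := ⌈(r.den : ℝ) * (y + 1 / (2 * M))⌉ with hc
    obtain ⟨u, hu, k, hk⟩ := exists_residue r.num c r.den hq1 hcop
    set g : ℝ := c / r.den - (y + 1 / (2 * M)) with hg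
    have hg0 : 0 ≤ g := by
      rw [hg, sub_nonneg, le_div_iff₀ hq]
      have := Int.le_ceil ((r.den : ℝ) * (y + 1 / (2 * M)))
      linarith
    have hg1 : g < 1 / r.den := by
      rw [hg, sub_lt_iff_lt_add, div_lt_iff₀ hq, add_mul, one_div_mul_cancel hq.ne']
      have := Int.ceil_lt_add_one ((r.den : ℝ) * (y + 1 / (2 * M)))
      linarith
    obtain ⟨t, ht1, ht2⟩ := step_exists ρ g hρ0 hg0 r.den u hq1 hu
    have hkR : (u : ℝ) * r.num = c + k * r.den := by exact_mod_cast hk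
    have e1 : ((u + r.den * t : ℕ) : ℝ) * θ - ((k + t * r.num : ℤ) : ℝ)
        = c / r.den - ((u + r.den * t : ℕ) : ℝ) * ρ := by
      rw [hθ, hrr']
      push_cast
      field_simp
      linear_combination hkR
    have h2M : (1 : ℝ) / (2 * M) + 1 / (2 * M) = 1 / M := by field_simp; norm_num
    refine ⟨u + r.den * t, hbound _ g hg1 ht2, hfin _ (k + t * r.num) ?_ ?_⟩
    · rw [e1]; linarith
    · rw [e1]; linarith

/-- **Good places exist after every place.** -/
theorem scale (b M : ℕ) (hb : 2 ≤ b) (hM : 1 ≤ M) (α : ℝ) (hα : Irrational α) (N : ℕ) :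
    ∃ i : ℕ, (∃ q : ℕ, 1 ≤ q ∧ q < 2 * M ∧ ∃ a : ℤ,
      (b : ℝ) ^ i * |(q : ℝ) * (α * (b : ℝ) ^ N) - a| ≤ 1) ∧
      ∃ r : ℚ, Good b M (α * (b : ℝ) ^ (N + i)) r := by
  classical
  have hMR : (0 : ℝ) < M := by exact_mod_cast hM
  have hM1 : (1 : ℝ) ≤ M := by exact_mod_cast hM
  have hbR : (2 : ℝ) ≤ b := by exact_mod_cast hb
  obtain ⟨r, hr1, hr2⟩ := Real.exists_rat_abs_sub_le_and_den_le (α * (b : ℝ) ^ N)
    (n := 2 * M - 1) (by omega)
  set ξ := α * (b : ℝ) ^ N with hξ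
  set Φ := |ξ - r| with hΦ
  have hirr : Irrational ξ := by
    rw [hξ, ← Nat.cast_pow]
    exact hα.mul_natCast (by positivity)
  have hΦ0 : 0 < Φ := by
    rw [hΦ, abs_pos, sub_ne_zero]
    exact hirr.ne_rat r
  have hq : (0 : ℝ) < r.den := by exact_mod_cast r.den_pos
  have hqM : (r.den : ℝ) < 2 * M := by
    have : r.den < 2 * M := by omega
    exact_mod_cast this
  have hqΦ : (r.den : ℝ) * Φ ≤ 1 / (2 * M) := by
    have e : ((2 * M - 1 : ℕ) : ℝ) + 1 = 2 * M := by
      have : 2 * M - 1 + 1 = 2 * M := by omega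
      exact_mod_cast this
    rw [e] at hr1
    rw [le_div_iff₀ (by positivity)] at hr1 ⊢
    linarith
  have hden : ∀ i : ℕ, ((b : ℚ) ^ (i + 1) * r).den ≤ ((b : ℚ) ^ i * r).den := by
    intro i
    have h1 : (b : ℚ) ^ (i + 1) * r = (b : ℚ) * ((b : ℚ) ^ i * r) := by ring
    rw [h1]
    have h2 := Rat.mul_den_dvd (b : ℚ) ((b : ℚ) ^ i * r)
    rw [Rat.den_natCast, one_mul] at h2
    exact Nat.le_of_dvd (Rat.den_pos _) h2
  have hden0 : ∀ i : ℕ, ((b : ℚ) ^ i * r).den ≤ r.den := by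
    intro i
    induction i with
    | zero => simp
    | succ i ih => exact (hden i).trans ih
  have hex : ∃ i : ℕ, 1 / (2 * b * M) < (((b : ℚ) ^ i * r).den : ℝ) * ((b : ℝ) ^ i * Φ) := by
    obtain ⟨i, hi⟩ := pow_unbounded_of_one_lt (1 / (2 * b * M) / Φ) (by linarith : (1 : ℝ) < b)
    refine ⟨i, ?_⟩
    rw [div_lt_iff₀ hΦ0] at hi
    have h1 : (1 : ℝ) ≤ ((b : ℚ) ^ i * r).den := by exact_mod_cast Rat.den_pos _
    have h2 : 0 ≤ (b : ℝ) ^ i * Φ := by positivity
    nlinarith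
  have e2 : ∀ i : ℕ, |α * (b : ℝ) ^ (N + i) - (((b : ℚ) ^ i * r : ℚ) : ℝ)| = (b : ℝ) ^ i * Φ := by
    intro i
    have : α * (b : ℝ) ^ (N + i) - (((b : ℚ) ^ i * r : ℚ) : ℝ) = (b : ℝ) ^ i * (ξ - r) := by
      rw [hξ, pow_add]; push_cast; ring
    rw [this, abs_mul, abs_of_pos (by positivity : (0 : ℝ) < (b : ℝ) ^ i)]
  have hrr : (r : ℝ) * r.den = r.num := by
    have := Rat.mul_den_eq_num r
    exact_mod_cast this
  have e3 : |(r.den : ℝ) * ξ - r.num| = r.den * Φ := by
    have : (r.den : ℝ) * ξ - r.num = r.den * (ξ - r) := by rw [← hrr]; ring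
    rw [this, abs_mul, abs_of_pos hq]
  have hspec := Nat.find_spec hex
  set i := Nat.find hex with hi
  have h2M : (1 : ℝ) / (2 * M) ≤ 1 := by rw [div_le_one (by positivity)]; linarith
  rcases Nat.eq_zero_or_pos i with h0 | h0
  · refine ⟨i, ⟨r.den, r.den_pos, by omega, r.num, ?_⟩, (b : ℚ) ^ i * r, ⟨?_, ?_, ?_⟩⟩
    · rw [e3, h0, pow_zero, one_mul]; linarith
    · exact lt_of_le_of_lt (hden0 i) (by omega)
    · rw [e2, h0]; simpa using hqΦ
    · rw [e2]; exact hspec
  · have h1 := Nat.find_min hex (Nat.sub_lt h0 one_pos)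
    push Not at h1
    obtain ⟨k, hk⟩ := Nat.exists_eq_succ_of_ne_zero (by omega : i ≠ 0)
    have hk' : Nat.find hex - 1 = k := by rw [← hi, hk]; rfl
    rw [hk'] at h1
    have h3 : (b : ℝ) * (1 / (2 * b * M)) = 1 / (2 * M) := by field_simp
    refine ⟨i, ⟨r.den, r.den_pos, by omega, r.num, ?_⟩, (b : ℚ) ^ i * r, ⟨?_, ?_, ?_⟩⟩
    · have h4 : (1 : ℝ) ≤ ((b : ℚ) ^ k * r).den := by exact_mod_cast Rat.den_pos _
      have h5 : (b : ℝ) ^ k * Φ ≤ 1 / (2 * b * M) := by
        have : 0 ≤ (b : ℝ) ^ k * Φ := by positivity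
        nlinarith
      have h6 : (b : ℝ) ^ i * Φ ≤ 1 / (2 * M) := by
        rw [hk, Nat.succ_eq_add_one, pow_succ, ← h3]
        have := mul_le_mul_of_nonneg_left h5 (by linarith : (0 : ℝ) ≤ b)
        linarith
      rw [e3]
      calc (b : ℝ) ^ i * (r.den * Φ) = r.den * ((b : ℝ) ^ i * Φ) := by ring
        _ ≤ (2 * M) * (1 / (2 * M)) := mul_le_mul hqM.le h6 (by positivity) (by positivity)
        _ = 1 := by field_simp
    · exact lt_of_le_of_lt (hden0 i) (by omega)
    · rw [e2, hk, Nat.succ_eq_add_one, ← h3]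
      have h4 : (((b : ℚ) ^ (k + 1) * r).den : ℝ) ≤ ((b : ℚ) ^ k * r).den := by
        exact_mod_cast hden k
      have h5 : 0 ≤ (b : ℝ) ^ (k + 1) * Φ := by positivity
      calc (((b : ℚ) ^ (k + 1) * r).den : ℝ) * ((b : ℝ) ^ (k + 1) * Φ)
          ≤ ((b : ℚ) ^ k * r).den * ((b : ℝ) ^ (k + 1) * Φ) := mul_le_mul_of_nonneg_right h4 h5
        _ = b * (((b : ℚ) ^ k * r).den * ((b : ℝ) ^ k * Φ)) := by rw [pow_succ]; ring
        _ ≤ _ := mul_le_mul_of_nonneg_left h1 (by linarith)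
    · rw [e2]; exact hspec

end Pool.Agent.W226.MP
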