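import Pool.Agent.W226.MP.Sharp

set_option autoImplicit false

namespace Pool.Agent.W226.MP

open Finset

/-- the integer formed by the digits of `Y` at the places `1, …, L` -/
theorem word_eq (b L : ℕ) (hb : 0 < b) (Y : ℝ) :
    ⌊Y * (b : ℝ) ^ L⌋ % ((b : ℤ) ^ L) = ((⌊Int.fract Y * (b : ℝ) ^ L⌋₊ : ℕ) : ℤ) := by
  have hB : 0 < b ^ L := by positivity
  have h1 := digit_eq (b ^ L) 1 hB Y 0 one_pos
  have h2 : ⌊Int.fract Y * ((b ^ L : ℕ) : ℝ) ^ 1⌋₊ < b ^ L := by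
    rw [Nat.floor_lt (by have := Int.fract_nonneg Y; positivity), pow_one]
    have h3 := Int.fract_lt_one Y
    have h4 : (0 : ℝ) < ((b ^ L : ℕ) : ℝ) := by exact_mod_cast hB
    nlinarith
  have e0 : (1 - 1 - 0 : ℕ) = 0 := rfl
  rw [e0, pow_zero, Nat.div_one, Nat.mod_eq_of_lt h2, zero_add, pow_one] at h1
  push_cast at h1 ⊢
  exact h1

/-- `m ↦` (digits of `x + m α` at the places `n + 1, …, n + L`) is at most `2 b` to one on
`m < b ^ L` and onto on `m < 4 b ^ (L + 1)` -/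
theorem words (b L : ℕ) (hb : 2 ≤ b) (α : ℝ) (n : ℕ) (r : ℚ)
    (h : Good b (b ^ L) (α * (b : ℝ) ^ n) r) (x : ℝ) (v : ℕ → ℕ) (hv : ∀ s, v s < b) :
    ((range (b ^ L)).filter (fun m : ℕ =>
      ∀ s < L, ⌊(x + m * α) * (b : ℝ) ^ (n + s + 1)⌋ % (b : ℤ) = v s)).card ≤ 2 * b ∧
    ∃ m < 4 * b ^ (L + 1), ∀ s < L, ⌊(x + m * α) * (b : ℝ) ^ (n + s + 1)⌋ % (b : ℤ) = v s := by
  have hb0 : 0 < b := by omega
  have hM : 1 ≤ b ^ L := Nat.one_le_pow _ _ hb0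
  have key : ∀ m : ℕ, (∀ s < L, ⌊(x + m * α) * (b : ℝ) ^ (n + s + 1)⌋ % (b : ℤ) = v s) ↔
      ⌊Int.fract (x * (b : ℝ) ^ n + m * (α * (b : ℝ) ^ n)) * ((b ^ L : ℕ) : ℝ)⌋₊ = val b v L := by
    intro m
    rw [occ_iff b hb0 v hv (x + m * α) n L, pow_add, ← mul_assoc, word_eq b L hb0]
    have e1 : (x + m * α) * (b : ℝ) ^ n = x * (b : ℝ) ^ n + m * (α * (b : ℝ) ^ n) := by ring
    rw [e1, Nat.cast_pow]
    exact Nat.cast_inj
  constructor
  · have h1 := cell_le b (b ^ L) hb hM (α * (b : ℝ) ^ n) r h (x * (b : ℝ) ^ n) (val b v L)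
    refine le_trans (le_of_eq ?_) h1
    congr 1
    apply Finset.filter_congr
    intro m _
    exact key m
  · obtain ⟨m, hm, hm2⟩ := cell_ge b (b ^ L) hb hM (α * (b : ℝ) ^ n) r h (x * (b : ℝ) ^ n)
      (val b v L) (val_lt b v hv L)
    refine ⟨m, ?_, (key m).2 hm2⟩
    calc m < 4 * b * b ^ L := hm
      _ = 4 * b ^ (L + 1) := by rw [pow_succ]; ring

/-- the word of length `L` of the digits of `y` after place `n` -/
noncomputable def wd (b : ℕ) (hb : 0 < b) (L n : ℕ) (y : ℝ) : Fin L → Fin b :=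
  fun s => ⟨(⌊y * (b : ℝ) ^ (n + s + 1)⌋ % (b : ℤ)).toNat, by
    have h1 := Int.emod_nonneg ⌊y * (b : ℝ) ^ (n + s + 1)⌋ (by omega : (b : ℤ) ≠ 0)
    have h2 := Int.emod_lt_of_pos ⌊y * (b : ℝ) ^ (n + s + 1)⌋ (by omega : (0 : ℤ) < b)
    omega⟩

theorem wd_spec (b : ℕ) (hb : 0 < b) (L n : ℕ) (y : ℝ) (s : Fin L) :
    ⌊y * (b : ℝ) ^ (n + s + 1)⌋ % (b : ℤ) = ((wd b hb L n y s : ℕ) : ℤ) := by
  have h1 := Int.emod_nonneg ⌊y * (b : ℝ) ^ (n + s + 1)⌋ (by omega : (b : ℤ) ≠ 0)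
  change _ = (((⌊y * (b : ℝ) ^ (n + s + 1)⌋ % (b : ℤ)).toNat : ℕ) : ℤ)
  rw [Int.toNat_of_nonneg h1]

/-- properties of words -/
theorem words_prop (b L : ℕ) (hb : 2 ≤ b) (α : ℝ) (n : ℕ) (r : ℚ)
    (h : Good b (b ^ L) (α * (b : ℝ) ^ n) r) (x : ℝ) (S : Finset ℕ) (W : Finset (Fin L → Fin b))
    (hS : ∀ m ∈ S, m < b ^ L ∧ wd b (by omega) L n (x + m * α) ∈ W) :
    S.card ≤ 2 * b * W.card := by
  classical
  have hb0 : 0 < b := by omega
  apply Finset.card_le_mul_card_image_of_maps_to (f := fun m : ℕ => wd b hb0 L n (x + m * α))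
    (fun m hm => (hS m hm).2)
  intro v _
  let v' : ℕ → ℕ := fun s => if h : s < L then (v ⟨s, h⟩ : ℕ) else 0
  have hv' : ∀ s, v' s < b := by
    intro s
    change (if h : s < L then (v ⟨s, h⟩ : ℕ) else 0) < b
    split_ifs with hs
    · exact (v ⟨s, hs⟩).2
    · exact hb0
  refine le_trans (Finset.card_le_card ?_) (words b L hb α n r h x v' hv').1
  intro m hm
  rw [Finset.mem_filter] at hm
  rw [Finset.mem_filter, Finset.mem_range]
  refine ⟨(hS m hm.1).1, fun s hs => ?_⟩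
  have h1 := wd_spec b hb0 L n (x + m * α) ⟨s, hs⟩
  rw [h1, hm.2]
  change _ = (((if h : s < L then (v ⟨s, h⟩ : ℕ) else 0) : ℕ) : ℤ)
  rw [dif_pos hs]

/-- `w` does not occur in the word `v` -/
def Avoids (b k L : ℕ) (w : Fin k → Fin b) (v : Fin L → Fin b) : Prop :=
  ∀ p : ℕ, p + k ≤ L → ∃ (s : Fin k) (t : Fin L), (t : ℕ) = p + s ∧ v t ≠ w s

open Classical in
/-- the sharp bound for multiples in which the block `w` occurs only finitely often -/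
theorem avoid (b k L : ℕ) (hb : 2 ≤ b) (α : ℝ) (hα : Irrational α)
    (w : Fin k → Fin b) (x : ℝ) (S : Finset ℕ)
    (hS : ∀ m ∈ S, m < b ^ L ∧ {p : ℕ | ∀ s : Fin k,
      ⌊(x + m * α) * (b : ℝ) ^ (p + s + 1)⌋ % (b : ℤ) = ((w s : ℕ) : ℤ)}.Finite) :
    S.card ≤ 2 * b * (univ.filter (fun v : Fin L → Fin b => Avoids b k L w v)).card := by
  have hb0 : 0 < b := by omega
  have h2 : ∀ m ∈ S, ∃ N : ℕ, ∀ p : ℕ, N ≤ p → ¬ ∀ s : Fin k,
      ⌊(x + m * α) * (b : ℝ) ^ (p + s + 1)⌋ % (b : ℤ) = ((w s : ℕ) : ℤ) := by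
    intro m hm
    obtain ⟨N, hN⟩ := (hS m hm).2.bddAbove
    refine ⟨N + 1, fun p hp hcon => ?_⟩
    have := hN hcon
    omega
  choose! f hf using h2
  obtain ⟨i, _, r, hr⟩ := scale b (b ^ L) hb (Nat.one_le_pow _ _ hb0) α hα (S.sup f)
  apply words_prop b L hb α (S.sup f + i) r hr x S
  intro m hm
  refine ⟨(hS m hm).1, ?_⟩
  rw [Finset.mem_filter]
  refine ⟨Finset.mem_univ _, fun p hp => ?_⟩
  have h3 := hf m hm (S.sup f + i + p) (by have := Finset.le_sup (f := f) hm; omega)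
  push Not at h3
  obtain ⟨s, hs⟩ := h3
  refine ⟨s, ⟨p + s, by have := s.2; omega⟩, rfl, fun heq => hs ?_⟩
  have h4 := wd_spec b hb0 L (S.sup f + i) (x + m * α) ⟨p + s, by have := s.2; omega⟩
  rw [heq] at h4
  have e : S.sup f + i + ((⟨p + s, by have := s.2; omega⟩ : Fin L) : ℕ) + 1
      = S.sup f + i + p + s + 1 := by
    simp only []
    omega
  rw [e] at h4
  exact h4

end Pool.Agent.W226.MP
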