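import Mathlib

set_option autoImplicit false

namespace Pool.Agent.W226.MP

open Finset

/-- number of digits `a` among the `t` lowest digits of `z` in base `B` -/
def cnt (B a t z : ℕ) : ℕ := ((range t).filter (fun j => z / B ^ j % B = a)).card

theorem cnt_succ (B a t z : ℕ) :
    cnt B a (t + 1) z = (if z % B = a then 1 else 0) + cnt B a t (z / B) := by
  unfold cnt
  rw [Finset.card_filter, Finset.card_filter, Finset.sum_range_succ']
  rw [add_comm]
  congr 1
  · simp
  · apply Finset.sum_congr rfl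
    intro j _
    rw [pow_succ', ← Nat.div_div_eq_div_mul]

theorem sum_range_mul' (f : ℕ → ℝ) (B n : ℕ) (hB : 0 < B) :
    ∑ z ∈ range (B * n), f z = ∑ z ∈ range n, ∑ d ∈ range B, f (B * z + d) := by
  induction n with
  | zero => simp
  | succ n ih =>
    rw [mul_add, mul_one, Finset.sum_range_add, ih, Finset.sum_range_succ]

theorem exp_moment (B a : ℕ) (hB : 2 ≤ B) (ha : a < B) (l : ℝ) (t : ℕ) :
    ∑ z ∈ range (B ^ t), Real.exp (l * cnt B a t z) = (Real.exp l + (B - 1)) ^ t := by
  induction t with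
  | zero => simp [cnt]
  | succ t ih =>
    rw [pow_succ', sum_range_mul' _ _ _ (by omega), pow_succ', ← ih, Finset.mul_sum]
    apply Finset.sum_congr rfl
    intro z _
    have h1 : ∀ d ∈ range B, Real.exp (l * cnt B a (t + 1) (B * z + d))
        = (if d = a then Real.exp l else 1) * Real.exp (l * cnt B a t z) := by
      intro d hd
      rw [Finset.mem_range] at hd
      have e1 : (B * z + d) % B = d := by rw [Nat.mul_add_mod, Nat.mod_eq_of_lt hd]
      have e2 : (B * z + d) / B = z := by
        rw [Nat.mul_add_div (by omega), Nat.div_eq_of_lt hd, add_zero]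
      rw [cnt_succ, e1, e2]
      split_ifs with h
      · push_cast
        rw [mul_add, Real.exp_add, mul_one]
      · simp
    rw [Finset.sum_congr rfl h1, ← Finset.sum_mul]
    congr 1
    rw [Finset.sum_ite, Finset.sum_const, Finset.sum_const]
    have h2 : (range B).filter (fun d => d = a) = {a} := by
      ext d
      rw [Finset.mem_filter, Finset.mem_range, Finset.mem_singleton]
      constructor
      · rintro ⟨_, h⟩; exact h
      · rintro h; exact ⟨by omega, h⟩
    have h3 : ((range B).filter (fun d => ¬ d = a)).card = B - 1 := by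
      have := Finset.card_filter_add_card_filter_not (s := range B) (p := fun d => d = a)
      rw [h2, Finset.card_range, Finset.card_singleton] at this
      omega
    rw [h2, h3, Finset.card_singleton]
    rw [nsmul_eq_mul, nsmul_eq_mul, Nat.cast_sub (by omega)]
    push_cast
    ring

theorem markov (B a : ℕ) (hB : 2 ≤ B) (ha : a < B) (l u : ℝ) (t : ℕ) (P : ℕ → Prop)
    [DecidablePred P] (hP : ∀ z, P z → u ≤ l * cnt B a t z) :
    (((range (B ^ t)).filter P).card : ℝ) ≤ Real.exp (-u) * (Real.exp l + (B - 1)) ^ t := by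
  rw [← exp_moment B a hB ha, Finset.mul_sum, Finset.card_filter]
  push_cast
  apply Finset.sum_le_sum
  intro z _
  split_ifs with h
  · rw [← Real.exp_add]
    have := hP z h
    exact Real.one_le_exp (by linarith)
  · positivity

/-- the key inequality for the moment generating function -/
theorem mgf_bound (p l : ℝ) (hp0 : 0 ≤ p) (hp1 : p ≤ 1) (hl : |l| ≤ 1) :
    p * Real.exp l + (1 - p) ≤ Real.exp (p * l + l ^ 2) := by
  have h1 := Real.abs_exp_sub_one_sub_id_le hl
  have h2 : Real.exp l ≤ 1 + l + l ^ 2 := by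
    have := (abs_le.1 h1).2
    linarith
  have h3 : p * Real.exp l + (1 - p) ≤ 1 + (p * l + l ^ 2) := by
    have : p * Real.exp l ≤ p * (1 + l + l ^ 2) := mul_le_mul_of_nonneg_left h2 hp0
    nlinarith [sq_nonneg l]
  have h4 := Real.add_one_le_exp (p * l + l ^ 2)
  linarith

/-- **Words with a wrong frequency of a letter.** -/
theorem bad_words (B a : ℕ) (hB : 2 ≤ B) (ha : a < B) (ε : ℝ) (hε : 0 < ε) (hε1 : ε ≤ 1) (t : ℕ) :
    (((range (B ^ t)).filter (fun z => ε * t < |(cnt B a t z : ℝ) - t / B|)).card : ℝ)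
      ≤ 2 * Real.exp (-(ε ^ 2 / 4) * t) * (B : ℝ) ^ t := by
  classical
  have hB0 : (0 : ℝ) < B := by positivity
  have key : ∀ l : ℝ, |l| ≤ 1 → (Real.exp l + (B - 1)) ^ t
      ≤ Real.exp ((1 / B * l + l ^ 2) * t) * (B : ℝ) ^ t := by
    intro l hl
    have h1 := mgf_bound (1 / B) l (by positivity)
      (by rw [div_le_one hB0]; exact_mod_cast (by omega : 1 ≤ B)) hl
    have h2 : Real.exp l + (B - 1) = (1 / B * Real.exp l + (1 - 1 / B)) * B := by field_simp
    have h3 : 0 ≤ 1 / B * Real.exp l + (1 - 1 / (B : ℝ)) := by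
      have : (1 : ℝ) / B ≤ 1 := by rw [div_le_one hB0]; exact_mod_cast (by omega : 1 ≤ B)
      have h4 : 0 ≤ 1 / B * Real.exp l := by positivity
      linarith
    rw [h2, mul_pow]
    apply mul_le_mul_of_nonneg_right _ (by positivity)
    calc (1 / B * Real.exp l + (1 - 1 / (B : ℝ))) ^ t ≤ (Real.exp (1 / B * l + l ^ 2)) ^ t :=
          pow_le_pow_left₀ h3 h1 t
      _ = _ := by rw [← Real.exp_nat_mul]; ring_nf
  have hsplit : (range (B ^ t)).filter (fun z => ε * t < |(cnt B a t z : ℝ) - t / B|)
      ⊆ (range (B ^ t)).filter (fun z => ε * t ≤ (cnt B a t z : ℝ) - t / B)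
        ∪ (range (B ^ t)).filter (fun z => ε * t ≤ -((cnt B a t z : ℝ) - t / B)) := by
    intro z hz
    rw [Finset.mem_union, Finset.mem_filter, Finset.mem_filter]
    rw [Finset.mem_filter] at hz
    rcases lt_abs.1 hz.2 with h | h
    · exact Or.inl ⟨hz.1, h.le⟩
    · exact Or.inr ⟨hz.1, h.le⟩
  have hl1 : |ε / 2| ≤ 1 := by rw [abs_of_pos (by linarith)]; linarith
  have hl2 : |-(ε / 2)| ≤ 1 := by rw [abs_neg]; exact hl1
  have hU := markov B a hB ha (ε / 2) (ε / 2 * (ε * t + t / B)) t
    (fun z => ε * t ≤ (cnt B a t z : ℝ) - t / B) (by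
      intro z hz
      apply mul_le_mul_of_nonneg_left _ (by linarith)
      linarith)
  have hL := markov B a hB ha (-(ε / 2)) (ε / 2 * (ε * t - t / B)) t
    (fun z => ε * t ≤ -((cnt B a t z : ℝ) - t / B)) (by
      intro z hz
      have : ε / 2 * (ε * t - t / B) ≤ ε / 2 * (-(cnt B a t z : ℝ)) :=
        mul_le_mul_of_nonneg_left (by linarith) (by linarith)
      linarith)
  have hU' : (((range (B ^ t)).filter (fun z => ε * t ≤ (cnt B a t z : ℝ) - t / B)).card : ℝ)
      ≤ Real.exp (-(ε ^ 2 / 4) * t) * (B : ℝ) ^ t := by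
    refine hU.trans ?_
    refine (mul_le_mul_of_nonneg_left (key _ hl1) (Real.exp_pos _).le).trans (le_of_eq ?_)
    rw [← mul_assoc, ← Real.exp_add]
    congr 2
    field_simp
    ring
  have hL' : (((range (B ^ t)).filter (fun z => ε * t ≤ -((cnt B a t z : ℝ) - t / B))).card : ℝ)
      ≤ Real.exp (-(ε ^ 2 / 4) * t) * (B : ℝ) ^ t := by
    refine hL.trans ?_
    refine (mul_le_mul_of_nonneg_left (key _ hl2) (Real.exp_pos _).le).trans (le_of_eq ?_)
    rw [← mul_assoc, ← Real.exp_add]
    congr 2
    field_simp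
    ring
  calc (((range (B ^ t)).filter (fun z => ε * t < |(cnt B a t z : ℝ) - t / B|)).card : ℝ)
      ≤ (((range (B ^ t)).filter (fun z => ε * t ≤ (cnt B a t z : ℝ) - t / B)
        ∪ (range (B ^ t)).filter (fun z => ε * t ≤ -((cnt B a t z : ℝ) - t / B))).card : ℝ) := by
        exact_mod_cast Finset.card_le_card hsplit
    _ ≤ (((range (B ^ t)).filter (fun z => ε * t ≤ (cnt B a t z : ℝ) - t / B)).card : ℝ)
        + (((range (B ^ t)).filter (fun z => ε * t ≤ -((cnt B a t z : ℝ) - t / B))).card : ℝ) := by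
        exact_mod_cast Finset.card_union_le _ _
    _ ≤ _ := by linarith

end Pool.Agent.W226.MP
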